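import Mathlib
import Pool.Agent.Results.MP_002b89_co.OddPaths

/-!
# The inverse Turán number of paths of even length

For every `t ≥ 2`, `ex⁻¹(k, P_{2t}) ≤ (1 / (2 t (t - 1)) + o(1)) k²`.
-/

set_option autoImplicit false

namespace Pool.Agent.Results.MP_69c6fe_co.EvenPaths

open SimpleGraph Finset Filter

/-! ### The optimisation problem -/

section opt

variable {I : Type} [Fintype I] [DecidableEq I]

/-- `1` on the diagonal and on the pairs which are not adjacent, `0` on the edges. -/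
noncomputable def mat (R : SimpleGraph I) (i j : I) : ℝ :=
  open Classical in if R.Adj i j then 0 else 1

/-- `y · z + zᵀ M z / 4`. -/
noncomputable def fn (R : SimpleGraph I) (y z : I → ℝ) : ℝ :=
  ∑ i, y i * z i + (∑ i, ∑ j, mat R i j * z i * z j) / 4

omit [Fintype I] [DecidableEq I] in
theorem mat_symm (R : SimpleGraph I) (i j : I) : mat R i j = mat R j i := by
  unfold mat
  by_cases h : R.Adj i j
  · rw [if_pos h, if_pos h.symm]
  · rw [if_neg h, if_neg fun h' => h h'.symm]

omit [Fintype I] [DecidableEq I] in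
theorem mat_self (R : SimpleGraph I) (i : I) : mat R i i = 1 := by
  unfold mat
  simp

omit [Fintype I] [DecidableEq I] in
theorem mat_nonneg (R : SimpleGraph I) (i j : I) : 0 ≤ mat R i j := by
  unfold mat
  split_ifs <;> norm_num

/-- the slope -/
noncomputable def slope (R : SimpleGraph I) (y z : I → ℝ) (i j : I) : ℝ :=
  y i - y j + (∑ k, mat R i k * z k - ∑ k, mat R j k * z k) / 2

/-- moving the mass `s` from `j` to `i` -/
noncomputable def mv (z : I → ℝ) (i j : I) (s : ℝ) : I → ℝ :=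
  fun k => z k + s * ((if k = i then 1 else 0) - (if k = j then 1 else 0))

theorem fn_mv (R : SimpleGraph I) (y z : I → ℝ) (i j : I) (s : ℝ) :
    fn R y (mv z i j s) = fn R y z + s * slope R y z i j + s ^ 2 / 2 * (1 - mat R i j) := by
  set e : I → ℝ := fun k => (if k = i then 1 else 0) - (if k = j then 1 else 0) with he
  have h1 : ∀ f : I → ℝ, ∑ k, f k * e k = f i - f j := by
    intro f
    simp [he, mul_sub, Finset.sum_sub_distrib]
  have hz : mv z i j s = fun k => z k + s * e k := rfl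
  unfold fn slope
  rw [hz]
  have h2 : ∑ k, y k * (z k + s * e k) = ∑ k, y k * z k + s * (y i - y j) := by
    rw [← h1 y, Finset.mul_sum, ← Finset.sum_add_distrib]
    exact Finset.sum_congr rfl fun k _ => by ring
  have h3 : ∀ k, ∑ l, mat R k l * (z k + s * e k) * (z l + s * e l) =
      ∑ l, mat R k l * z k * z l + s * ((∑ l, mat R k l * z l) * e k) +
        s * ((mat R k i - mat R k j) * z k) + s ^ 2 * ((mat R k i - mat R k j) * e k) := by
    intro k
    rw [← h1 (fun l => mat R k l), Finset.sum_mul, Finset.sum_mul, Finset.sum_mul,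
      Finset.mul_sum, Finset.mul_sum, Finset.mul_sum, ← Finset.sum_add_distrib,
      ← Finset.sum_add_distrib, ← Finset.sum_add_distrib]
    exact Finset.sum_congr rfl fun l _ => by ring
  have h4 : ∑ k, ∑ l, mat R k l * (z k + s * e k) * (z l + s * e l) =
      ∑ k, ∑ l, mat R k l * z k * z l + 2 * s * (∑ k, mat R i k * z k - ∑ k, mat R j k * z k) +
        s ^ 2 * (2 - 2 * mat R i j) := by
    simp only [h3]
    rw [Finset.sum_add_distrib, Finset.sum_add_distrib, Finset.sum_add_distrib,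
      ← Finset.mul_sum, ← Finset.mul_sum, ← Finset.mul_sum,
      h1 (fun k => ∑ l, mat R k l * z l), h1 (fun k => mat R k i - mat R k j)]
    have h5 : ∑ k, (mat R k i - mat R k j) * z k =
        ∑ k, mat R i k * z k - ∑ k, mat R j k * z k := by
      rw [← Finset.sum_sub_distrib]
      exact Finset.sum_congr rfl fun k _ => by rw [mat_symm R k i, mat_symm R k j]; ring
    rw [h5, mat_self, mat_self, mat_symm R j i]
    ring
  rw [h2, h4]
  ring

omit [Fintype I] in
theorem mv_apply_left (z : I → ℝ) {i j : I} (hij : i ≠ j) (s : ℝ) : mv z i j s i = z i + s := by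
  simp [mv, hij]

omit [Fintype I] in
theorem mv_apply_right (z : I → ℝ) {i j : I} (hij : i ≠ j) (s : ℝ) : mv z i j s j = z j - s := by
  simp [mv, hij.symm]; ring

omit [Fintype I] in
theorem mv_apply_ne (z : I → ℝ) {i j k : I} (hi : k ≠ i) (hj : k ≠ j) (s : ℝ) :
    mv z i j s k = z k := by
  simp [mv, hi, hj]

/-- the simplex -/
def smp (I : Type) [Fintype I] (c : ℝ) : Set (I → ℝ) := {z | (∀ i, 0 ≤ z i) ∧ ∑ i, z i = c}

theorem mv_mem {c : ℝ} {z : I → ℝ} (hz : z ∈ smp I c) {i j : I} (hij : i ≠ j) {s : ℝ}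
    (h1 : -z i ≤ s) (h2 : s ≤ z j) : mv z i j s ∈ smp I c := by
  refine ⟨fun k => ?_, ?_⟩
  · by_cases hi : k = i
    · subst hi; rw [mv_apply_left z hij]; linarith
    · by_cases hj : k = j
      · subst hj; rw [mv_apply_right z hij]; linarith
      · rw [mv_apply_ne z hi hj]; exact hz.1 k
  · unfold mv
    rw [Finset.sum_add_distrib, hz.2, ← Finset.mul_sum, Finset.sum_sub_distrib]
    simp

omit [DecidableEq I] in
theorem fn_continuous (R : SimpleGraph I) (y : I → ℝ) : Continuous (fn R y) := by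
  unfold fn
  fun_prop

omit [DecidableEq I] in
theorem smp_compact (c : ℝ) : IsCompact (smp I c) := by
  have hsub : smp I c ⊆ Set.pi Set.univ (fun _ : I => Set.Icc 0 c) := by
    rintro z ⟨h1, h2⟩ i -
    refine ⟨h1 i, ?_⟩
    rw [← h2]
    exact Finset.single_le_sum (fun j _ => h1 j) (Finset.mem_univ i)
  refine IsCompact.of_isClosed_subset (isCompact_univ_pi fun _ => isCompact_Icc) ?_ hsub
  have h : smp I c = (⋂ i, {z : I → ℝ | 0 ≤ z i}) ∩ {z | ∑ i, z i = c} := by
    ext z; simp [smp]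
  rw [h]
  refine IsClosed.inter (isClosed_iInter fun i => isClosed_le continuous_const (continuous_apply i))
    (isClosed_eq (by fun_prop) continuous_const)

omit [DecidableEq I] in
theorem row (R : SimpleGraph I) (z : I → ℝ) (hz : ∀ i, 0 ≤ z i)
    (hcl : ∀ i j, i ≠ j → 0 < z i → 0 < z j → R.Adj i j) :
    ∀ i, 0 < z i → ∑ k, mat R i k * z k = z i := by
  intro i hi
  rw [Finset.sum_eq_single i]
  · rw [mat_self, one_mul]
  · intro k _ hk
    rcases (hz k).eq_or_lt with h | h
    · rw [← h, mul_zero]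
    · have := hcl i k hk.symm hi h
      unfold mat
      rw [if_pos this, zero_mul]
  · intro h; exact absurd (Finset.mem_univ i) h

/-- A minimiser whose support is a clique and which satisfies the first order conditions. -/
theorem exists_opt (R : SimpleGraph I) (y : I → ℝ) (c : ℝ) (hne : (smp I c).Nonempty) :
    ∃ z ∈ smp I c, (∀ z' ∈ smp I c, fn R y z ≤ fn R y z') ∧
      (∀ i j, i ≠ j → 0 < z i → 0 < z j → R.Adj i j) ∧
      (∀ i j, 0 < z i → 0 < z j → y i + z i / 2 = y j + z j / 2) := by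
  classical
  obtain ⟨z₀, hz₀, hmin₀⟩ := (smp_compact c).exists_isMinOn hne (fn_continuous R y).continuousOn
  have hmin₀' : ∀ z' ∈ smp I c, fn R y z₀ ≤ fn R y z' := fun z' hz' => hmin₀ hz'
  have hex : ∃ n, ∃ z ∈ smp I c, (∀ z' ∈ smp I c, fn R y z ≤ fn R y z') ∧
      (univ.filter fun i => z i ≠ 0).card = n := ⟨_, z₀, hz₀, hmin₀', rfl⟩
  obtain ⟨z, hz, hmin, hcard⟩ := Nat.find_spec hex
  have hleast := fun n h => Nat.find_min' hex (m := n) h
  rw [← hcard] at hleast
  -- the slopes vanish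
  have hslope : ∀ i j, i ≠ j → 0 < z i → 0 < z j → 0 ≤ slope R y z i j := by
    intro i j hij hi hj
    by_contra hcon
    push Not at hcon
    set g := slope R y z i j with hg
    set s := min (z j) (-g) with hs
    have hs0 : 0 < s := lt_min hj (by linarith)
    have h1 := hmin _ (mv_mem hz hij (s := s) (by linarith) (min_le_left _ _))
    rw [fn_mv] at h1
    have h2 : s ≤ -g := min_le_right _ _
    have h3 := mat_nonneg R i j
    have h4 : s ^ 2 / 2 * (1 - mat R i j) ≤ s ^ 2 / 2 := by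
      have : 0 ≤ s ^ 2 / 2 := by positivity
      nlinarith
    have h5 : s * g + s ^ 2 / 2 < 0 := by nlinarith
    rw [← hg] at h1
    linarith
  have hanti : ∀ i j, slope R y z i j = - slope R y z j i := by
    intro i j; unfold slope; ring
  have hzero : ∀ i j, i ≠ j → 0 < z i → 0 < z j → slope R y z i j = 0 := by
    intro i j hij hi hj
    have h1 := hslope i j hij hi hj
    have h2 := hslope j i hij.symm hj hi
    have h3 := hanti i j
    linarith
  have hcl : ∀ i j, i ≠ j → 0 < z i → 0 < z j → R.Adj i j := by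
    intro i j hij hi hj
    by_contra hcon
    have hm : mat R i j = 1 := by unfold mat; rw [if_neg hcon]
    have hmem := mv_mem hz hij (s := z j) (by linarith) le_rfl
    have hval : fn R y (mv z i j (z j)) = fn R y z := by
      rw [fn_mv, hzero i j hij hi hj, hm]; ring
    have h1 := hleast _ ⟨_, hmem, fun z' hz' => hval.le.trans (hmin z' hz'), rfl⟩
    have h2 : (univ.filter fun k => mv z i j (z j) k ≠ 0) ⊂ (univ.filter fun k => z k ≠ 0) := by
      rw [Finset.ssubset_iff_of_subset]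
      · refine ⟨j, by simp [hj.ne'], ?_⟩
        simp [mv_apply_right z hij]
      · intro k hk
        rw [mem_filter] at hk ⊢
        refine ⟨mem_univ _, ?_⟩
        by_cases hki : k = i
        · subst hki; exact hi.ne'
        · by_cases hkj : k = j
          · subst hkj; exact hj.ne'
          · rw [mv_apply_ne z hki hkj] at hk; exact hk.2
    have h3 := Finset.card_lt_card h2
    omega
  refine ⟨z, hz, hmin, hcl, ?_⟩
  intro i j hi hj
  have hrow := row R z hz.1 hcl
  by_cases hij : i = j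
  · rw [hij]
  · have h1 := hzero i j hij hi hj
    unfold slope at h1
    rw [hrow i hi, hrow j hj] at h1
    linarith

end opt

/-! ### Rounding -/

section round

variable {I : Type} [Fintype I] [DecidableEq I]

/-- the pointwise inequality -/
theorem point (y z θ : ℝ) (q : ℕ) (hq : q ≤ 2) (hz0 : 0 ≤ z) (hz2 : z ≤ 2)
    (h1 : q ≤ 1 → θ ≤ y + q + 1 / 2) (h2 : 1 ≤ q → y + q - 1 / 2 ≤ θ) :
    θ * (z - q) ≤ (y * z + z ^ 2 / 4 + z / 2) - (y * q + (q : ℝ) ^ 2 / 2) := by
  obtain rfl | rfl | rfl : q = 0 ∨ q = 1 ∨ q = 2 := by omega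
  · have := h1 (by norm_num)
    push_cast at *
    nlinarith [sq_nonneg z]
  · have a := h1 (by norm_num)
    have b := h2 (by norm_num)
    push_cast at *
    set d := y + 1 - θ with hd
    have e1 : d ≤ 1 / 2 := by linarith
    have e2 : -(1 / 2) ≤ d := by linarith
    have e3 : (y * z + z ^ 2 / 4 + z / 2) - (y * 1 + (1 : ℝ) ^ 2 / 2) - θ * (z - 1) =
        d * (z - 1) + ((z - 1) ^ 2 + 1) / 4 := by rw [hd]; ring
    have e4 : 0 ≤ d * (z - 1) + ((z - 1) ^ 2 + 1) / 4 := by
      rcases le_total 1 z with h | h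
      · nlinarith [sq_nonneg (z - 1 - 1)]
      · nlinarith [sq_nonneg (1 - z - 1)]
    linarith
  · have b := h2 (by norm_num)
    push_cast at *
    nlinarith [sq_nonneg (z / 2 - 1)]

/-- If `y ≥ 0` and `fn R y z < t` for some `z` in the simplex, then there is a small pattern on a
clique. -/
theorem exists_pattern (R : SimpleGraph I) (y : I → ℝ) (hy : ∀ i, 0 ≤ y i) (t : ℕ) (ht : 1 ≤ t)
    (z₀ : I → ℝ) (hz₀ : z₀ ∈ smp I (2 * t)) (hF : fn R y z₀ < t) :
    ∃ q : I → ℕ, ∑ i, q i = 2 * t ∧ (∀ i j, i ≠ j → q i ≠ 0 → q j ≠ 0 → R.Adj i j) ∧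
      ∑ i, y i * q i + (∑ i, (q i : ℝ) ^ 2) / 2 < 2 * t := by
  classical
  have htr : (1 : ℝ) ≤ t := by exact_mod_cast ht
  obtain ⟨z, hz, hmin, hcl, hfo⟩ := exists_opt R y (2 * t) ⟨z₀, hz₀⟩
  have hFz : fn R y z < t := (hmin z₀ hz₀).trans_lt hF
  have hrow := row R z hz.1 hcl
  have hfn : fn R y z = ∑ i, (y i * z i + z i ^ 2 / 4) := by
    unfold fn
    rw [Finset.sum_add_distrib, Finset.sum_div]
    congr 1
    refine Finset.sum_congr rfl fun i _ => ?_
    have : ∑ j, mat R i j * z i * z j = z i * ∑ j, mat R i j * z j := by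
      rw [Finset.mul_sum]
      exact Finset.sum_congr rfl fun j _ => by ring
    rw [this]
    rcases (hz.1 i).eq_or_lt with h | h
    · rw [← h]; ring
    · rw [hrow i h]; ring
  obtain ⟨i₀, hi₀⟩ : ∃ i, 0 < z i := by
    by_contra hcon
    push Not at hcon
    have h1 : ∑ i, z i ≤ 0 := Finset.sum_nonpos fun i _ => hcon i
    rw [hz.2] at h1
    linarith
  set lam := y i₀ + z i₀ / 2 with hlam
  have hlam' : ∀ i, 0 < z i → y i + z i / 2 = lam := fun i hi => hfo i i₀ hi hi₀
  have hlam1 : lam < 1 := by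
    by_contra hcon
    push Not at hcon
    have h1 : ∑ i, (lam / 2 * z i) ≤ ∑ i, (y i * z i + z i ^ 2 / 4) := by
      refine Finset.sum_le_sum fun i _ => ?_
      rcases (hz.1 i).eq_or_lt with h | h
      · rw [← h]; simp
      · have h2 := hlam' i h
        have h3 := hy i
        nlinarith
    rw [← Finset.mul_sum, hz.2, ← hfn] at h1
    nlinarith
  have hz2 : ∀ i, z i ≤ 2 := by
    intro i
    rcases (hz.1 i).eq_or_lt with h | h
    · rw [← h]; norm_num
    · have h2 := hlam' i h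
      have h3 := hy i
      linarith
  -- the support
  set K : Finset I := univ.filter fun i => 0 < z i with hK
  have hKmem : ∀ i, i ∈ K ↔ 0 < z i := fun i => by simp [hK]
  have hKcard : t ≤ K.card := by
    have h1 : ∑ i, z i = ∑ i ∈ K, z i := by
      rw [hK, Finset.sum_filter]
      refine Finset.sum_congr rfl fun i _ => ?_
      split_ifs with h
      · rfl
      · exact le_antisymm (not_lt.1 h) (hz.1 i)
    have h2 : ∑ i ∈ K, z i ≤ ∑ i ∈ K, (2 : ℝ) := Finset.sum_le_sum fun i _ => hz2 i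
    rw [Finset.sum_const, nsmul_eq_mul, ← h1, hz.2] at h2
    have h3 : (t : ℝ) ≤ K.card := by linarith
    exact_mod_cast h3
  set Q : Finset (I → ℕ) :=
    (Fintype.piFinset fun i => if 0 < z i then Finset.range 3 else {0}).filter
      fun q => ∑ i, q i = 2 * t with hQ
  have hQmem : ∀ q, q ∈ Q ↔ (∀ i, q i ≤ 2) ∧ (∀ i, ¬ 0 < z i → q i = 0) ∧ ∑ i, q i = 2 * t := by
    intro q
    rw [hQ, mem_filter, Fintype.mem_piFinset]
    constructor
    · rintro ⟨h1, h2⟩
      refine ⟨fun i => ?_, fun i hi => ?_, h2⟩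
      · have := h1 i
        split_ifs at this with h
        · have := Finset.mem_range.1 this; omega
        · have := Finset.mem_singleton.1 this; omega
      · have := h1 i
        rw [if_neg hi] at this
        exact Finset.mem_singleton.1 this
    · rintro ⟨h1, h2, h3⟩
      refine ⟨fun i => ?_, h3⟩
      split_ifs with h
      · rw [Finset.mem_range]; have := h1 i; omega
      · rw [Finset.mem_singleton]; exact h2 i h
  have hQne : Q.Nonempty := by
    obtain ⟨A, hA1, hA2⟩ := Finset.exists_subset_card_eq hKcard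
    refine ⟨fun i => if i ∈ A then 2 else 0, ?_⟩
    rw [hQmem]
    refine ⟨fun i => by split_ifs <;> omega, fun i hi => ?_, ?_⟩
    · rw [if_neg]
      intro h
      exact hi ((hKmem i).1 (hA1 h))
    · rw [Finset.sum_ite_mem, Finset.univ_inter, Finset.sum_const, hA2, smul_eq_mul, mul_comm]
  obtain ⟨q, hq, hqmin⟩ := Finset.exists_min_image Q
    (fun q => ∑ i, (y i * (q i : ℝ) + (q i : ℝ) ^ 2 / 2)) hQne
  rw [hQmem] at hq
  obtain ⟨hq2, hq0, hqs⟩ := hq
  -- exchange
  have hex : ∀ i j, 0 < z i → q i ≤ 1 → 1 ≤ q j → y j + q j - 1 / 2 ≤ y i + q i + 1 / 2 := by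
    intro i j hi hqi hqj
    by_cases hij : i = j
    · subst hij; linarith
    set q' : I → ℕ := Function.update (Function.update q i (q i + 1)) j (q j - 1) with hq'
    have hq'i : q' i = q i + 1 := by
      rw [hq', Function.update_of_ne hij, Function.update_self]
    have hq'j : q' j = q j - 1 := by rw [hq', Function.update_self]
    have hq'k : ∀ k, k ≠ i → k ≠ j → q' k = q k := by
      intro k h1 h2
      rw [hq', Function.update_of_ne h2, Function.update_of_ne h1]
    have hsum : ∀ (f g : I → ℝ), (∀ k, k ≠ i → k ≠ j → f k = g k) →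
        ∑ k, f k - ∑ k, g k = (f i - g i) + (f j - g j) := by
      intro f g hfg
      rw [← Finset.sum_sub_distrib]
      rw [← Finset.sum_subset (Finset.subset_univ {i, j})]
      · rw [Finset.sum_pair hij]
      · intro k _ hk
        rw [Finset.mem_insert, Finset.mem_singleton, not_or] at hk
        rw [hfg k hk.1 hk.2, sub_self]
    have hmem : q' ∈ Q := by
      rw [hQmem]
      refine ⟨fun k => ?_, fun k hk => ?_, ?_⟩
      · by_cases h1 : k = i
        · subst h1; rw [hq'i]; omega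
        · by_cases h2 : k = j
          · subst h2; rw [hq'j]; have := hq2 k; omega
          · rw [hq'k k h1 h2]; exact hq2 k
      · have h1 : k ≠ i := fun h => hk (h ▸ hi)
        by_cases h2 : k = j
        · subst h2; rw [hq'j]; have := hq0 k hk; omega
        · rw [hq'k k h1 h2]; exact hq0 k hk
      · have h1 := hsum (fun k => (q' k : ℝ)) (fun k => (q k : ℝ))
          (fun k h1 h2 => by rw [hq'k k h1 h2])
        rw [hq'i, hq'j, Nat.cast_sub hqj] at h1
        have h2 : (∑ k, (q' k : ℝ)) = ∑ k, (q k : ℝ) := by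
          push_cast at h1
          linarith
        have h3 : ((∑ k, q' k : ℕ) : ℝ) = ((∑ k, q k : ℕ) : ℝ) := by
          push_cast; exact h2
        have h4 : ∑ k, q' k = ∑ k, q k := by exact_mod_cast h3
        rw [h4, hqs]
    have h1 := hqmin q' hmem
    have h2 := hsum (fun k => y k * (q' k : ℝ) + (q' k : ℝ) ^ 2 / 2)
      (fun k => y k * (q k : ℝ) + (q k : ℝ) ^ 2 / 2)
      (fun k h1 h2 => by rw [hq'k k h1 h2])
    rw [hq'i, hq'j, Nat.cast_sub hqj] at h2
    push_cast at h2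
    nlinarith
  -- the threshold
  obtain ⟨j₁, hj₁⟩ : ∃ j, 1 ≤ q j := by
    by_contra hcon
    push Not at hcon
    have : ∑ i, q i = 0 := Finset.sum_eq_zero fun i _ => by have := hcon i; omega
    omega
  obtain ⟨j₀, hj₀, hj₀max⟩ := Finset.exists_max_image (univ.filter fun j => 1 ≤ q j)
    (fun j => y j + q j - 1 / 2) ⟨j₁, by simpa using hj₁⟩
  rw [mem_filter] at hj₀
  set θ := y j₀ + q j₀ - 1 / 2 with hθ
  have hsumle : ∑ i, θ * (z i - q i) ≤
      ∑ i, ((y i * z i + z i ^ 2 / 4 + z i / 2) - (y i * q i + (q i : ℝ) ^ 2 / 2)) := by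
    refine Finset.sum_le_sum fun i _ => ?_
    by_cases hi : 0 < z i
    · refine point (y i) (z i) θ (q i) (hq2 i) (hz.1 i) (hz2 i) ?_ ?_
      · intro h
        exact hex i j₀ hi h hj₀.2
      · intro h
        exact hj₀max i (by simpa using h)
    · have h1 : z i = 0 := le_antisymm (not_lt.1 hi) (hz.1 i)
      rw [h1, hq0 i hi]
      simp
  have hl : ∑ i, θ * (z i - q i) = 0 := by
    rw [← Finset.mul_sum, Finset.sum_sub_distrib, hz.2]
    have : (∑ i, (q i : ℝ)) = 2 * t := by exact_mod_cast hqs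
    rw [this, sub_self, mul_zero]
  have hr : ∑ i, ((y i * z i + z i ^ 2 / 4 + z i / 2) - (y i * q i + (q i : ℝ) ^ 2 / 2)) =
      fn R y z + t - (∑ i, y i * q i + (∑ i, (q i : ℝ) ^ 2) / 2) := by
    rw [Finset.sum_sub_distrib, Finset.sum_add_distrib, ← hfn, ← Finset.sum_div, hz.2,
      Finset.sum_add_distrib, ← Finset.sum_div]
    ring
  refine ⟨q, hqs, ?_, ?_⟩
  · intro i j hij hi hj
    refine hcl i j hij ?_ ?_
    · by_contra h; exact hi (hq0 i h)
    · by_contra h; exact hj (hq0 j h)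
  · rw [hl, hr] at hsumle
    linarith

end round

/-! ### Embedding -/

section embed

variable {V ι : Type} [DecidableEq V] [DecidableEq ι] [Nonempty V]

open Classical in
/-- Greedy embedding into candidate sets with pairwise large hereditary density. -/
theorem embed (G : SimpleGraph V) (c : ℝ) (hc0 : 0 < c) (hc1 : c ≤ 1) (η : ℝ) (hη : 1 ≤ η)
    (rel : ι → ι → Prop) (hrel : ∀ a b, rel a b → rel b a) (s : Finset ι) :
    ∀ (U : ι → Finset V),
      (∀ a ∈ s, ((s.card : ℝ) + 2) / c ^ s.card * η ≤ (U a).card) →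
      (∀ a ∈ s, ∀ b ∈ s, a ≠ b → rel a b → ∀ A ⊆ U a, ∀ B ⊆ U b, η ≤ A.card → η ≤ B.card →
        c * (A.card * B.card) ≤ ∑ v ∈ A, ((B.filter (fun w => G.Adj v w)).card : ℝ)) →
      ∃ f : ι → V, (∀ a ∈ s, f a ∈ U a) ∧ (∀ a ∈ s, ∀ b ∈ s, a ≠ b → f a ≠ f b) ∧
        (∀ a ∈ s, ∀ b ∈ s, a ≠ b → rel a b → G.Adj (f a) (f b)) := by
  induction s using Finset.induction_on with
  | empty =>
    intro U _ _
    exact ⟨fun _ => Classical.arbitrary V, by simp, by simp, by simp⟩
  | insert a s ha ih =>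
    intro U hU hd
    have hcard : (insert a s).card = s.card + 1 := Finset.card_insert_of_notMem ha
    rw [hcard] at hU
    push_cast at hU
    have hcn : 0 < c ^ s.card := by positivity
    have hcn1 : c ^ s.card ≤ 1 := pow_le_one₀ hc0.le hc1
    have hcn2 : c ^ (s.card + 1) ≤ 1 := pow_le_one₀ hc0.le hc1
    have hcn3 : 0 < c ^ (s.card + 1) := by positivity
    have hbig : ∀ b ∈ insert a s, ((s.card : ℝ) + 3) * η ≤ (U b).card := by
      intro b hb
      refine le_trans ?_ (hU b hb)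
      gcongr
      rw [le_div_iff₀ hcn3]
      have : 0 ≤ (s.card : ℝ) := by positivity
      nlinarith
    set Bad : ι → Finset V := fun b =>
      (U a).filter (fun v => (((U b).filter (fun w => G.Adj v w)).card : ℝ) < c * (U b).card)
      with hBad
    have hbad : ∀ b ∈ s, rel a b → ((Bad b).card : ℝ) < η := by
      intro b hb hab
      by_contra hcon
      push Not at hcon
      have hne : a ≠ b := fun h => ha (h ▸ hb)
      have h1 := hd a (Finset.mem_insert_self _ _) b (Finset.mem_insert_of_mem hb) hne hab (Bad b)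
        (Finset.filter_subset _ _) (U b) Finset.Subset.rfl hcon (by
          have h2 := hbig b (Finset.mem_insert_of_mem hb)
          have : 0 ≤ (s.card : ℝ) := by positivity
          nlinarith)
      have hne : (Bad b).Nonempty := by
        rw [← Finset.card_pos]
        have : (0 : ℝ) < (Bad b).card := by linarith
        exact_mod_cast this
      have h3 : ∑ v ∈ Bad b, (((U b).filter (fun w => G.Adj v w)).card : ℝ) <
          ∑ v ∈ Bad b, c * (U b).card := by
        refine Finset.sum_lt_sum_of_nonempty hne fun v hv => ?_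
        rw [hBad, mem_filter] at hv
        exact hv.2
      rw [Finset.sum_const, nsmul_eq_mul] at h3
      have h4 : c * ((Bad b).card * (U b).card : ℝ) = (Bad b).card * (c * (U b).card) := by ring
      linarith
    obtain ⟨v, hv, hvb⟩ : ∃ v ∈ U a, ∀ b ∈ s, rel a b →
        c * (U b).card ≤ (((U b).filter (fun w => G.Adj v w)).card : ℝ) := by
      by_contra hcon
      push Not at hcon
      have h1 : U a ⊆ (s.filter (fun b => rel a b)).biUnion Bad := by
        intro v hv
        obtain ⟨b, hb, hab, hlt⟩ := hcon v hv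
        rw [Finset.mem_biUnion]
        exact ⟨b, by simp [hb, hab], by rw [hBad, mem_filter]; exact ⟨hv, hlt⟩⟩
      have h2 : ((U a).card : ℝ) ≤ ∑ b ∈ s.filter (fun b => rel a b), ((Bad b).card : ℝ) := by
        exact_mod_cast (Finset.card_le_card h1).trans Finset.card_biUnion_le
      have h3 : ∑ b ∈ s.filter (fun b => rel a b), ((Bad b).card : ℝ) ≤
          ∑ b ∈ s.filter (fun b => rel a b), η := by
        refine Finset.sum_le_sum fun b hb => ?_
        rw [mem_filter] at hb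
        exact (hbad b hb.1 hb.2).le
      rw [Finset.sum_const, nsmul_eq_mul] at h3
      have h4 : ((s.filter (fun b => rel a b)).card : ℝ) ≤ s.card := by
        exact_mod_cast Finset.card_filter_le _ _
      have h5 := hbig a (Finset.mem_insert_self _ _)
      nlinarith
    -- the new candidate sets
    set U' : ι → Finset V := fun b =>
      (if rel a b then (U b).filter (fun w => G.Adj v w) else U b).erase v with hU'
    have hsub : ∀ b, U' b ⊆ U b := by
      intro b
      rw [hU']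
      refine (Finset.erase_subset _ _).trans ?_
      split_ifs
      · exact Finset.filter_subset _ _
      · exact Finset.Subset.rfl
    obtain ⟨f, hf1, hf2, hf3⟩ := ih U' (by
      intro b hb
      have h1 : c * (U b).card ≤
          ((if rel a b then (U b).filter (fun w => G.Adj v w) else U b).card : ℝ) := by
        split_ifs with h
        · exact hvb b hb h
        · have : (0 : ℝ) ≤ (U b).card := by positivity
          nlinarith
      have h2 : ((if rel a b then (U b).filter (fun w => G.Adj v w) else U b).card : ℝ) - 1 ≤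
          (U' b).card := by
        rw [hU']
        have := Finset.pred_card_le_card_erase
          (s := if rel a b then (U b).filter (fun w => G.Adj v w) else U b) (a := v)
        have h3 : (if rel a b then (U b).filter (fun w => G.Adj v w) else U b).card ≤
          ((if rel a b then (U b).filter (fun w => G.Adj v w) else U b).erase v).card + 1 := by
          omega
        have h4 : ((if rel a b then (U b).filter (fun w => G.Adj v w) else U b).card : ℝ) ≤
          ((if rel a b then (U b).filter (fun w => G.Adj v w) else U b).erase v).card + 1 := by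
          exact_mod_cast h3
        linarith
      have h5 := hU b (Finset.mem_insert_of_mem hb)
      have h6 : ((s.card : ℝ) + 2) / c ^ s.card * η + 1 ≤ c * (U b).card := by
        calc ((s.card : ℝ) + 2) / c ^ s.card * η + 1 ≤
            ((s.card : ℝ) + 2) / c ^ s.card * η + 1 / c ^ s.card * η := by
              gcongr
              have : 1 ≤ 1 / c ^ s.card := by rw [le_div_iff₀ hcn]; linarith
              nlinarith
          _ = c * (((s.card : ℝ) + 1 + 2) / c ^ (s.card + 1) * η) := by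
              rw [pow_succ]
              field_simp
              ring
          _ ≤ c * (U b).card := by gcongr
      linarith) (by
      intro b hb b' hb' hne hr A hA B hB h1 h2
      exact hd b (Finset.mem_insert_of_mem hb) b' (Finset.mem_insert_of_mem hb') hne hr A
        (hA.trans (hsub b)) B (hB.trans (hsub b')) h1 h2)
    have hfv : ∀ b ∈ s, f b ≠ v := by
      intro b hb h
      have := hf1 b hb
      rw [hU', h] at this
      exact (Finset.mem_erase.1 this).1 rfl
    have hfadj : ∀ b ∈ s, rel a b → G.Adj v (f b) := by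
      intro b hb hab
      have := hf1 b hb
      rw [hU'] at this
      have h2 := (Finset.mem_erase.1 this).2
      rw [if_pos hab, mem_filter] at h2
      exact h2.2
    have hu1 : Function.update f a v a = v := Function.update_self _ _ _
    have hu2 : ∀ b ∈ s, Function.update f a v b = f b := by
      intro b hb
      exact Function.update_of_ne (fun h => ha (by rw [← h]; exact hb)) _ _
    refine ⟨Function.update f a v, ?_, ?_, ?_⟩
    · intro b hb
      rcases Finset.mem_insert.1 hb with h | hbs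
      · rw [h, hu1]; exact hv
      · rw [hu2 b hbs]; exact hsub b (hf1 b hbs)
    · intro b hb b' hb' hne
      rcases Finset.mem_insert.1 hb with h | hbs
      · rcases Finset.mem_insert.1 hb' with h' | hbs'
        · exact absurd (h.trans h'.symm) hne
        · rw [h, hu1, hu2 b' hbs']; exact (hfv b' hbs').symm
      · rcases Finset.mem_insert.1 hb' with h' | hbs'
        · rw [h', hu1, hu2 b hbs]; exact hfv b hbs
        · rw [hu2 b hbs, hu2 b' hbs']; exact hf2 b hbs b' hbs' hne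
    · intro b hb b' hb' hne hr
      rcases Finset.mem_insert.1 hb with h | hbs
      · rcases Finset.mem_insert.1 hb' with h' | hbs'
        · exact absurd (h.trans h'.symm) hne
        · rw [h] at hr; rw [h, hu1, hu2 b' hbs']; exact hfadj b' hbs' hr
      · rcases Finset.mem_insert.1 hb' with h' | hbs'
        · rw [h'] at hr; rw [h', hu1, hu2 b hbs]; exact (hfadj b hbs (hrel _ _ hr)).symm
        · rw [hu2 b hbs, hu2 b' hbs']; exact hf3 b hbs b' hbs' hne hr

end embed

/-! ### The reduced graph -/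

section reduced

variable {V : Type} [Fintype V] [DecidableEq V]

/-- The reduced graph on the parts of a partition. -/
def red (G : SimpleGraph V) [DecidableRel G.Adj] (P : Finpartition (univ : Finset V))
    (ε₀ d : ℝ) : SimpleGraph P.parts where
  Adj U W := U ≠ W ∧ G.IsUniform ε₀ (U : Finset V) (W : Finset V) ∧
    d ≤ (G.edgeDensity (U : Finset V) (W : Finset V) : ℝ)
  symm := ⟨fun U W h => ⟨h.1.symm, h.2.1.symm, by rw [edgeDensity_comm]; exact h.2.2⟩⟩
  loopless := ⟨fun U h => h.1 rfl⟩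

/-- The sum of the products of the sizes over the adjacent pairs of parts. -/
noncomputable def sumR (G : SimpleGraph V) [DecidableRel G.Adj]
    (P : Finpartition (univ : Finset V)) (ε₀ d : ℝ) : ℝ :=
  open Classical in ∑ U : P.parts, ∑ W : P.parts,
    if (red G P ε₀ d).Adj U W then ((U : Finset V).card : ℝ) * ((W : Finset V).card : ℝ) else 0

theorem reg_count (G : SimpleGraph V) [DecidableRel G.Adj] [Nonempty V]
    (P : Finpartition (univ : Finset V)) (hP : P.IsEquipartition) (ε₀ d εo : ℝ)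
    (hunif : P.IsUniform G ε₀) (h0 : 0 < ε₀) (hd : 0 ≤ d) (ho : 0 < εo)
    (hl : 4 / εo ≤ (P.parts.card : ℝ)) :
    ∑ v : V, ((univ.filter (fun w => G.Adj v w)).card : ℝ) ≤
      sumR G P ε₀ d + (4 * ε₀ + εo / 2 + 4 * d) * (Fintype.card V : ℝ) ^ 2 := by
  classical
  set E : Finset (V × V) := univ.filter fun p => G.Adj p.1 p.2 with hE
  have hEc : ∑ v : V, ((univ.filter (fun w => G.Adj v w)).card : ℝ) = (E.card : ℝ) := by
    rw [hE, Finset.card_filter, Fintype.sum_prod_type]
    push_cast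
    refine Finset.sum_congr rfl fun v _ => ?_
    rw [Finset.card_filter]
    push_cast
    rfl
  set A1 : Finset (V × V) := (univ.filter (fun p : P.parts × P.parts =>
    (red G P ε₀ d).Adj p.1 p.2)).biUnion (fun p => (p.1 : Finset V) ×ˢ (p.2 : Finset V)) with hA1
  have hsub : E ⊆ ((A1 ∪ (P.nonUniforms G ε₀).biUnion fun (U, W) => U ×ˢ W) ∪
      P.parts.biUnion offDiag) ∪ (P.sparsePairs G d).biUnion fun (U, W) => G.interedges U W := by
    rintro ⟨x, y⟩ hxy
    rw [hE, mem_filter] at hxy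
    have hadj : G.Adj x y := hxy.2
    obtain ⟨U, hU, hx⟩ := P.exists_mem (mem_univ x)
    obtain ⟨W, hW, hy⟩ := P.exists_mem (mem_univ y)
    simp only [mem_union, mem_biUnion, Finpartition.mk_mem_nonUniforms,
      Finpartition.mk_mem_sparsePairs, Prod.exists, mem_product, mem_offDiag]
    by_cases hUW : U = W
    · subst hUW
      left; right
      exact ⟨U, hU, hx, hy, hadj.ne⟩
    by_cases h1 : G.IsUniform ε₀ U W
    · by_cases h2 : d ≤ (G.edgeDensity U W : ℝ)
      · left; left; left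
        rw [hA1, mem_biUnion]
        refine ⟨(⟨U, hU⟩, ⟨W, hW⟩), ?_, ?_⟩
        · rw [mem_filter]
          exact ⟨mem_univ _, fun h => hUW (congrArg Subtype.val h), h1, h2⟩
        · rw [mem_product]; exact ⟨hx, hy⟩
      · right
        exact ⟨U, W, ⟨hU, hW, hUW, not_le.1 h2⟩, by
          rw [mk_mem_interedges_iff]; exact ⟨hx, hy, hadj⟩⟩
    · left; left; right
      exact ⟨U, W, ⟨hU, hW, hUW, h1⟩, hx, hy⟩
  have hc1 : (A1.card : ℝ) ≤ sumR G P ε₀ d := by
    have h1 : A1.card ≤ ∑ p ∈ univ.filter (fun p : P.parts × P.parts =>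
        (red G P ε₀ d).Adj p.1 p.2), ((p.1 : Finset V) ×ˢ (p.2 : Finset V)).card :=
      Finset.card_biUnion_le
    have h2 : (A1.card : ℝ) ≤ ∑ p ∈ univ.filter (fun p : P.parts × P.parts =>
        (red G P ε₀ d).Adj p.1 p.2), (((p.1 : Finset V).card : ℝ) * ((p.2 : Finset V).card : ℝ)) := by
      refine (Nat.cast_le.2 h1).trans (le_of_eq ?_)
      push_cast
      refine Finset.sum_congr rfl fun p _ => ?_
      rw [Finset.card_product]; push_cast; rfl
    refine h2.trans (le_of_eq ?_)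
    rw [Finset.sum_filter, Fintype.sum_prod_type]
    rfl
  have hne : (univ : Finset V).Nonempty := Finset.univ_nonempty
  have hc2 := (hP.sum_nonUniforms_lt hne h0 hunif).le
  have hc3 := hP.card_biUnion_offDiag_le ho hl
  have hc4 := hP.card_interedges_sparsePairs_le (G := G) hd
  rw [Finset.card_univ] at hc2 hc3 hc4
  have h5 := (Finset.card_le_card hsub).trans ((Finset.card_union_le _ _).trans
    (Nat.add_le_add_right ((Finset.card_union_le _ _).trans
      (Nat.add_le_add_right (Finset.card_union_le _ _) _)) _))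
  have h6 := (Nat.cast_le (α := ℝ)).2 h5
  push_cast at h6
  rw [hEc]
  linarith

end reduced

/-! ### Placing a pattern -/

section place

variable {V : Type} [Fintype V] [DecidableEq V]

theorem place (G : SimpleGraph V) [DecidableRel G.Adj] [Nonempty V]
    (P : Finpartition (univ : Finset V)) (ε₀ c : ℝ) (hc0 : 0 < c) (hc1 : c ≤ 1) (h0 : ε₀ ≤ c)
    (hε : 0 ≤ ε₀) (q : P.parts → ℕ)
    (hcl : ∀ U W, U ≠ W → q U ≠ 0 → q W ≠ 0 → (red G P ε₀ (2 * c)).Adj U W)
    (n₀ : ℕ) (hn : ∀ U : P.parts, (U : Finset V).card ≤ n₀ + 1) (hη : 1 ≤ ε₀ * ((n₀ : ℝ) + 1))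
    (C : P.parts → Finset V) (hC : ∀ U, C U ⊆ (U : Finset V)) (s : ℕ) (hs : ∑ U, q U = s)
    (hCc : ∀ U, ((s : ℝ) + 2) / c ^ s * (ε₀ * ((n₀ : ℝ) + 1)) ≤ (C U).card) :
    ∃ f : (Σ U : P.parts, Fin (q U)) → V, Function.Injective f ∧ (∀ a, f a ∈ C a.1) ∧
      ∀ a b, a.1 ≠ b.1 → G.Adj (f a) (f b) := by
  classical
  have hcard : (univ : Finset (Σ U : P.parts, Fin (q U))).card = s := by
    rw [Finset.card_univ, Fintype.card_sigma, ← hs]
    exact Finset.sum_congr rfl fun U _ => by rw [Fintype.card_fin]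
  obtain ⟨f, h1, h2, h3⟩ := embed G c hc0 hc1 (ε₀ * ((n₀ : ℝ) + 1)) hη
    (fun a b : (Σ U : P.parts, Fin (q U)) => a.1 ≠ b.1) (fun a b h => h.symm) univ
    (fun a => C a.1) (by
      intro a _
      rw [hcard]
      exact hCc a.1) (by
      intro a _ b _ _ hab A hA B hB hA' hB'
      have hadj := hcl a.1 b.1 hab (by have := a.2.isLt; omega) (by have := b.2.isLt; omega)
      obtain ⟨-, hu, hd⟩ := hadj
      have ha1 : (((a.1 : Finset V).card : ℝ)) * ε₀ ≤ A.card := by
        refine le_trans ?_ hA'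
        rw [mul_comm]
        have : (((a.1 : Finset V).card : ℝ)) ≤ n₀ + 1 := by exact_mod_cast hn a.1
        gcongr
      have hb1 : (((b.1 : Finset V).card : ℝ)) * ε₀ ≤ B.card := by
        refine le_trans ?_ hB'
        rw [mul_comm]
        have : (((b.1 : Finset V).card : ℝ)) ≤ n₀ + 1 := by exact_mod_cast hn b.1
        gcongr
      have hdens := hu (hA.trans (hC a.1)) (hB.trans (hC b.1)) ha1 hb1
      rw [abs_lt] at hdens
      have hd2 : c ≤ (G.edgeDensity A B : ℝ) := by linarith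
      have hA0 : (0 : ℝ) < A.card := by linarith
      have hB0 : (0 : ℝ) < B.card := by linarith
      rw [edgeDensity_def] at hd2
      push_cast at hd2
      rw [le_div_iff₀ (by positivity)] at hd2
      refine hd2.trans (le_of_eq ?_)
      rw [interedges_def, Finset.card_filter, Finset.sum_product]
      push_cast
      refine Finset.sum_congr rfl fun v _ => ?_
      rw [Finset.card_filter]
      push_cast
      refine Finset.sum_congr rfl fun w _ => ?_
      congr)
  refine ⟨f, ?_, fun a => h1 a (mem_univ _), fun a b hab =>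
    h3 a (mem_univ _) b (mem_univ _) (fun h => hab (by rw [h])) hab⟩
  intro a b hab
  by_contra hne
  exact h2 a (mem_univ _) b (mem_univ _) hne hab

end place

/-! ### One step of the removal -/

section step

/-- the number of neighbours of `v` in `S` -/
noncomputable def dg {V : Type} (G : SimpleGraph V) (S : Finset V) (v : V) : ℝ :=
  open Classical in ((S.filter fun w => G.Adj v w).card : ℝ)

/-- twice the number of edges inside `S` -/
noncomputable def tot {V : Type} (G : SimpleGraph V) (S : Finset V) : ℝ := ∑ v ∈ S, dg G S v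

theorem dg_nonneg {V : Type} (G : SimpleGraph V) (S : Finset V) (v : V) : 0 ≤ dg G S v := by
  unfold dg; positivity

theorem dg_le {V : Type} (G : SimpleGraph V) (S : Finset V) (v : V) : dg G S v ≤ S.card := by
  classical
  unfold dg; exact_mod_cast Finset.card_filter_le _ _

variable {V : Type} [Fintype V] [DecidableEq V]

open Classical in
/-- The vertices of a part whose degree is at most the average plus `ε₁`. -/
theorem low_part (D : V → ℝ) (hD : ∀ v, 0 ≤ D v) (N : ℝ) (hN : 0 < N) (hDN : ∀ v, D v ≤ N)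
    (U : Finset V) (hU : U.Nonempty) (ε₁ : ℝ) (hε : 0 < ε₁) (hε1 : ε₁ ≤ 1) :
    ε₁ / 2 * U.card ≤
      ((U.filter fun v => D v / N ≤ (∑ v ∈ U, D v) / (N * U.card) + ε₁).card : ℝ) := by
  set m := (∑ v ∈ U, D v) / (N * U.card) with hm
  set C := U.filter fun v => D v / N ≤ m + ε₁ with hC
  have hUc : (0 : ℝ) < U.card := by exact_mod_cast hU.card_pos
  have hNU : 0 < N * U.card := mul_pos hN hUc
  have hsum : ∑ v ∈ U, D v = m * (N * U.card) := by rw [hm, div_mul_cancel₀ _ hNU.ne']
  have hm0 : 0 ≤ m := by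
    rw [hm]; exact div_nonneg (Finset.sum_nonneg fun v _ => hD v) hNU.le
  have hm1 : m ≤ 1 := by
    rw [hm, div_le_one hNU]
    calc ∑ v ∈ U, D v ≤ ∑ v ∈ U, N := Finset.sum_le_sum fun v _ => hDN v
      _ = N * U.card := by rw [Finset.sum_const, nsmul_eq_mul, mul_comm]
  have h1 : ∑ v ∈ U \ C, (m + ε₁) * N ≤ ∑ v ∈ U, D v := by
    calc ∑ v ∈ U \ C, (m + ε₁) * N ≤ ∑ v ∈ U \ C, D v := by
          refine Finset.sum_le_sum fun v hv => ?_
          rw [Finset.mem_sdiff, hC, mem_filter] at hv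
          have h2 : ¬ D v / N ≤ m + ε₁ := fun h => hv.2 ⟨hv.1, h⟩
          push Not at h2
          rw [lt_div_iff₀ hN] at h2
          exact h2.le
      _ ≤ ∑ v ∈ U, D v :=
          Finset.sum_le_sum_of_subset_of_nonneg Finset.sdiff_subset fun v _ _ => hD v
  rw [Finset.sum_const, nsmul_eq_mul, hsum] at h1
  have hsub : C ⊆ U := Finset.filter_subset _ _
  have h3 : ((U \ C).card : ℝ) = U.card - C.card := by
    rw [Finset.card_sdiff_of_subset hsub, Nat.cast_sub (Finset.card_le_card hsub)]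
  rw [h3] at h1
  have h4 : ((U.card : ℝ) - C.card) * (m + ε₁) ≤ m * U.card := by
    have : (((U.card : ℝ) - C.card) * (m + ε₁)) * N ≤ (m * U.card) * N := by nlinarith
    exact le_of_mul_le_mul_right this hN
  have hC0 : (0 : ℝ) ≤ C.card := Nat.cast_nonneg _
  nlinarith

/-- Either some vertex has low degree, or there is a `2t`-set with many edges. -/
theorem main_step (t : ℕ) (ht : 1 ≤ t) (ε : ℝ) (hε : 0 < ε) : ∃ N₀ : ℕ,
    ∀ (V : Type) [Fintype V] (G : SimpleGraph V), N₀ ≤ Fintype.card V →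
      (∃ v : V, dg G univ v / Fintype.card V ≤
        1 / 2 - 1 / (2 * t) + tot G univ / (2 * (Fintype.card V : ℝ) ^ 2) + ε) ∨
      (∃ B : Finset V, B.card = 2 * t ∧
        2 * t * (t - 1) + 2 * t * (∑ v ∈ B, dg G univ v) / Fintype.card V -
          2 * t ^ 2 * tot G univ / (Fintype.card V : ℝ) ^ 2 - ε ≤ tot G B) := by
  classical
  have htr : (1 : ℝ) ≤ t := by exact_mod_cast ht
  have htp : (0 : ℝ) < t := by linarith
  set ε₁ : ℝ := min (ε / (8 * t ^ 2)) 1 with hε₁
  have hε₁0 : 0 < ε₁ := by rw [hε₁]; positivity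
  have hε₁1 : ε₁ ≤ 1 := min_le_right _ _
  have hε₁ε : 8 * (t : ℝ) ^ 2 * ε₁ ≤ ε := by
    have h1 : ε₁ ≤ ε / (8 * t ^ 2) := min_le_left _ _
    rw [le_div_iff₀ (by positivity)] at h1
    linarith
  have hε₁ε' : ε₁ ≤ ε := by
    have h1 : (1 : ℝ) ≤ t ^ 2 := one_le_pow₀ htr
    have h2 : ε₁ * 1 ≤ ε₁ * (8 * t ^ 2) := by gcongr; linarith
    linarith
  set c : ℝ := ε₁ / 32 with hc
  have hc0 : 0 < c := by positivity
  have hc1 : c ≤ 1 := by rw [hc]; linarith
  set K : ℝ := (((2 * t : ℕ) : ℝ) + 2) / c ^ (2 * t) with hK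
  have hK0 : 0 < K := by rw [hK]; positivity
  set ε₀ : ℝ := min c (ε₁ / (4 * K)) with hε₀
  have hε₀0 : 0 < ε₀ := lt_min hc0 (by positivity)
  have hε₀c : ε₀ ≤ c := min_le_left _ _
  have hε₀K : K * ε₀ ≤ ε₁ / 4 := by
    have h1 : ε₀ ≤ ε₁ / (4 * K) := min_le_right _ _
    rw [le_div_iff₀ (by positivity)] at h1
    linarith
  set l : ℕ := ⌈8 / ε₁⌉₊ with hl
  have hl0 : 1 ≤ l := Nat.one_le_ceil_iff.2 (by positivity)
  refine ⟨max l (SzemerediRegularity.bound ε₀ l * (⌈1 / ε₀⌉₊ + 1)), ?_⟩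
  intro V _ G hV
  set N : ℝ := (Fintype.card V : ℝ) with hN
  have hcardpos : 0 < Fintype.card V := by omega
  have hN0 : 0 < N := by rw [hN]; exact_mod_cast hcardpos
  have hNe : Nonempty V := Fintype.card_pos_iff.1 hcardpos
  obtain ⟨P, hP, hPl, hPb, hPu⟩ := szemeredi_regularity (G := G) (l := l) hε₀0
    ((le_max_left _ _).trans hV)
  set r := P.parts.card with hr
  have hr0 : 0 < r := by omega
  set n₀ := Fintype.card V / r with hn₀
  have hn₀1 : ⌈1 / ε₀⌉₊ + 1 ≤ n₀ := by
    rw [hn₀, Nat.le_div_iff_mul_le hr0]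
    calc (⌈1 / ε₀⌉₊ + 1) * r ≤ (⌈1 / ε₀⌉₊ + 1) * SzemerediRegularity.bound ε₀ l :=
          Nat.mul_le_mul_left _ hPb
      _ = SzemerediRegularity.bound ε₀ l * (⌈1 / ε₀⌉₊ + 1) := mul_comm _ _
      _ ≤ _ := (le_max_right _ _).trans hV
  have hn₀r : 1 ≤ ε₀ * n₀ := by
    have h1 : 1 / ε₀ ≤ n₀ := (Nat.le_ceil _).trans (by exact_mod_cast (by omega))
    rw [div_le_iff₀ hε₀0] at h1
    linarith
  have hn₀1r : (1 : ℝ) ≤ n₀ := by exact_mod_cast (by omega : 1 ≤ n₀)
  have hub : ∀ U : P.parts, (U : Finset V).card ≤ n₀ + 1 := by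
    intro U
    have := hP.card_part_le_average_add_one U.2
    rwa [Finset.card_univ] at this
  have hlb : ∀ U : P.parts, n₀ ≤ (U : Finset V).card := by
    intro U
    have := hP.average_le_card_part U.2
    rwa [Finset.card_univ] at this
  by_cases hlow : ∃ v : V, dg G univ v / N ≤ 1 / 2 - 1 / (2 * t) + tot G univ / (2 * N ^ 2) + ε
  · exact Or.inl hlow
  right
  push Not at hlow
  set T := tot G univ with hT
  set p := T / N ^ 2 with hp
  have hTp : T = p * N ^ 2 := by rw [hp]; field_simp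
  have hlow' : ∀ v : V, (1 / 2 - 1 / (2 * t) + p / 2 + ε₁) * N < dg G univ v := by
    intro v
    have h1 := hlow v
    rw [lt_div_iff₀ hN0] at h1
    have h2 : T / (2 * N ^ 2) = p / 2 := by rw [hp]; field_simp
    rw [h2] at h1
    nlinarith
  -- the averages
  set dbar : P.parts → ℝ := fun U => (∑ v ∈ (U : Finset V), dg G univ v) /
    (N * (U : Finset V).card) with hdbar
  have hszpos : ∀ U : P.parts, (0 : ℝ) < (U : Finset V).card := by
    intro U; exact_mod_cast (by have := hlb U; omega : 0 < (U : Finset V).card)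
  have hdsum : ∀ U : P.parts, ∑ v ∈ (U : Finset V), dg G univ v =
      dbar U * (N * (U : Finset V).card) := by
    intro U
    have := hszpos U
    rw [hdbar]
    exact (div_mul_cancel₀ _ (mul_pos hN0 this).ne').symm
  have hdlow : ∀ U : P.parts, 1 / 2 - 1 / (2 * t) + p / 2 + ε₁ ≤ dbar U := by
    intro U
    have := hszpos U
    rw [hdbar]
    rw [le_div_iff₀ (mul_pos hN0 this)]
    have h1 : ∑ v ∈ (U : Finset V), (1 / 2 - 1 / (2 * t) + p / 2 + ε₁) * N ≤
        ∑ v ∈ (U : Finset V), dg G univ v := Finset.sum_le_sum fun v _ => (hlow' v).le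
    rw [Finset.sum_const, nsmul_eq_mul] at h1
    linarith
  have hpart : ∀ f : V → ℝ, ∑ U : P.parts, ∑ v ∈ (U : Finset V), f v = ∑ v, f v := by
    intro f
    rw [Finset.sum_coe_sort P.parts (fun U => ∑ v ∈ U, f v)]
    have h1 := Finset.sum_biUnion (f := f) P.disjoint
    rw [P.biUnion_parts] at h1
    exact h1.symm
  have hszsum : ∑ U : P.parts, ((U : Finset V).card : ℝ) = N := by
    have h1 := hpart (fun _ => 1)
    simp only [Finset.sum_const, nsmul_eq_mul, mul_one, Finset.card_univ] at h1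
    exact h1
  have hTsum : ∑ U : P.parts, dbar U * (N * (U : Finset V).card) = T := by
    rw [hT]
    unfold tot
    rw [← hpart]
    exact Finset.sum_congr rfl fun U _ => (hdsum U).symm
  set κ : ℝ := 1 / 2 + t * (1 - p) / 2 - t - t * ε₁ with hκ
  set y : P.parts → ℝ := fun U => κ + t * dbar U with hy
  set z : P.parts → ℝ := fun U => 2 * t * (U : Finset V).card / N with hz
  have hy0 : ∀ U, 0 ≤ y U := by
    intro U
    have h1 := hdlow U
    have h2 : (t : ℝ) * (1 / 2 - 1 / (2 * t) + p / 2 + ε₁) ≤ t * dbar U := by gcongr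
    have h3 : (t : ℝ) * (1 / 2 - 1 / (2 * t) + p / 2 + ε₁) = t / 2 - 1 / 2 + t * p / 2 + t * ε₁ := by
      field_simp
    rw [hy, hκ]
    simp only
    rw [h3] at h2
    linarith
  have hzmem : z ∈ smp P.parts (2 * t) := by
    refine ⟨fun U => div_nonneg (mul_nonneg (by linarith) (Nat.cast_nonneg _)) hN0.le, ?_⟩
    have : ∑ U, z U = 2 * t / N * ∑ U : P.parts, ((U : Finset V).card : ℝ) := by
      rw [Finset.mul_sum]
      exact Finset.sum_congr rfl fun U _ => by rw [hz]; ring
    rw [this, hszsum]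
    field_simp
  have hcount := reg_count G P hP ε₀ (2 * c) (ε₁ / 2) hPu hε₀0 (by positivity) (by positivity) (by
    have h1 : 8 / ε₁ ≤ (l : ℝ) := Nat.le_ceil _
    have h2 : (l : ℝ) ≤ r := by exact_mod_cast hPl
    have h3 : 4 / (ε₁ / 2) = 8 / ε₁ := by field_simp; norm_num
    rw [h3]; exact h1.trans h2)
  have hcount' : T ≤ sumR G P ε₀ (2 * c) + 3 / 4 * ε₁ * N ^ 2 := by
    have h1 : T = ∑ v : V, ((univ.filter (fun w => G.Adj v w)).card : ℝ) := by
      rw [hT]; unfold tot dg
      exact Finset.sum_congr rfl fun v _ => by congr!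
    rw [h1]
    refine hcount.trans ?_
    have h2 : 4 * ε₀ + ε₁ / 2 / 2 + 4 * (2 * c) ≤ 3 / 4 * ε₁ := by rw [hc] at *; linarith
    have h3 : 0 ≤ N ^ 2 := by positivity
    nlinarith
  have hmat : ∑ U, ∑ W, mat (red G P ε₀ (2 * c)) U W * z U * z W =
      4 * t ^ 2 - 4 * t ^ 2 / N ^ 2 * sumR G P ε₀ (2 * c) := by
    have h1 : ∀ U W, mat (red G P ε₀ (2 * c)) U W * z U * z W = z U * z W -
        4 * t ^ 2 / N ^ 2 * (if (red G P ε₀ (2 * c)).Adj U W then
          ((U : Finset V).card : ℝ) * ((W : Finset V).card : ℝ) else 0) := by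
      intro U W
      unfold mat
      by_cases h : (red G P ε₀ (2 * c)).Adj U W
      · rw [if_pos h, if_pos h, hz]
        ring
      · rw [if_neg h, if_neg h]; ring
    simp only [h1, Finset.sum_sub_distrib, ← Finset.mul_sum]
    rw [← Finset.sum_mul, hzmem.2]
    unfold sumR
    rw [show (2 * (t : ℝ)) * (2 * t) = 4 * t ^ 2 by ring]
  have hyz : ∑ U, y U * z U = 2 * t * κ + 2 * t ^ 2 * p := by
    have h1 : ∀ U, y U * z U = κ * z U + 2 * t ^ 2 / N ^ 2 * (dbar U * (N * (U : Finset V).card)) := by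
      intro U
      have h2 : N / N ^ 2 = 1 / N := by
        rw [div_eq_div_iff (by positivity) hN0.ne']; ring
      have h3 : 2 * (t : ℝ) ^ 2 / N ^ 2 * (dbar U * (N * (U : Finset V).card)) =
          2 * t ^ 2 * dbar U * (U : Finset V).card * (N / N ^ 2) := by ring
      rw [h3, h2, hy, hz]
      ring
    simp only [h1, Finset.sum_add_distrib, ← Finset.mul_sum]
    rw [hzmem.2, hTsum, hTp]
    field_simp
  have hfn : fn (red G P ε₀ (2 * c)) y z < t := by
    unfold fn
    rw [hmat, hyz]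
    have h1 : p ≤ sumR G P ε₀ (2 * c) / N ^ 2 + 3 / 4 * ε₁ := by
      rw [hp, div_le_iff₀ (by positivity), add_mul, div_mul_cancel₀ _ (by positivity)]
      exact hcount'
    have h2 : (4 * (t : ℝ) ^ 2 - 4 * t ^ 2 / N ^ 2 * sumR G P ε₀ (2 * c)) / 4 =
        t ^ 2 - t ^ 2 * (sumR G P ε₀ (2 * c) / N ^ 2) := by ring
    rw [h2, hκ]
    have h3 : (t : ℝ) ^ 2 * p ≤ t ^ 2 * (sumR G P ε₀ (2 * c) / N ^ 2 + 3 / 4 * ε₁) := by gcongr
    have h4 : 0 < (t : ℝ) ^ 2 * ε₁ := by positivity
    nlinarith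
  obtain ⟨q, hq1, hq2, hq3⟩ := exists_pattern _ y hy0 t ht z hzmem hfn
  set C : P.parts → Finset V := fun U =>
    (U : Finset V).filter fun v => dg G univ v / N ≤ dbar U + ε₁ with hC
  have hCc : ∀ U : P.parts, ε₁ / 2 * (U : Finset V).card ≤ ((C U).card : ℝ) := by
    intro U
    exact low_part (dg G univ) (dg_nonneg G univ) N hN0 (fun v => by
      have := dg_le G univ v
      rwa [Finset.card_univ] at this) U (P.nonempty_of_mem_parts U.2) ε₁ hε₁0 hε₁1
  have hηge : 1 ≤ ε₀ * ((n₀ : ℝ) + 1) := by nlinarith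
  obtain ⟨f, hf1, hf2, hf3⟩ := place G P ε₀ c hc0 hc1 hε₀c hε₀0.le q hq2 n₀ hub hηge C
    (fun U => Finset.filter_subset _ _) (2 * t) hq1 (by
      intro U
      refine le_trans ?_ (hCc U)
      have h1 : (n₀ : ℝ) ≤ (U : Finset V).card := by exact_mod_cast hlb U
      calc K * (ε₀ * ((n₀ : ℝ) + 1)) = (K * ε₀) * ((n₀ : ℝ) + 1) := by ring
        _ ≤ ε₁ / 4 * ((n₀ : ℝ) + 1) := by gcongr
        _ ≤ ε₁ / 2 * n₀ := by nlinarith
        _ ≤ ε₁ / 2 * (U : Finset V).card := by gcongr)
  set B : Finset V := (univ : Finset (Σ U : P.parts, Fin (q U))).map ⟨f, hf1⟩ with hB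
  have hsig : ∀ g : P.parts → ℝ, ∑ a : (Σ U : P.parts, Fin (q U)), g a.1 = ∑ U, q U * g U := by
    intro g
    rw [Fintype.sum_sigma]
    simp
  have hq1r : ∑ U, (q U : ℝ) = 2 * t := by exact_mod_cast hq1
  have hBcard : B.card = 2 * t := by
    rw [hB, Finset.card_map, Finset.card_univ, Fintype.card_sigma, ← hq1]
    exact Finset.sum_congr rfl fun U _ => Fintype.card_fin _
  have hdegB : ∀ a : (Σ U : P.parts, Fin (q U)), 2 * t - (q a.1 : ℝ) ≤ dg G B (f a) := by
    intro a
    have h1 : (((univ : Finset (Σ U : P.parts, Fin (q U))).filter fun b => b.1 ≠ a.1).card : ℝ) =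
        2 * t - q a.1 := by
      rw [Finset.card_filter]
      push_cast
      have h2 := hsig (fun U => if U ≠ a.1 then 1 else 0)
      rw [h2, ← hq1r, ← Finset.sum_erase_eq_sub (Finset.mem_univ a.1)]
      rw [← Finset.filter_ne', Finset.sum_filter]
      exact Finset.sum_congr rfl fun U _ => by split_ifs <;> simp
    rw [← h1]
    unfold dg
    rw [Nat.cast_le]
    rw [← Finset.card_map ⟨f, hf1⟩]
    apply Finset.card_le_card
    intro w hw
    rw [Finset.mem_map] at hw
    obtain ⟨b, hb, rfl⟩ := hw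
    rw [mem_filter] at hb
    rw [mem_filter]
    refine ⟨?_, hf3 a b hb.2.symm⟩
    rw [hB, Finset.mem_map]
    exact ⟨b, mem_univ _, rfl⟩
  have htotB : 4 * (t : ℝ) ^ 2 - ∑ U, (q U : ℝ) ^ 2 ≤ tot G B := by
    unfold tot
    conv_rhs => rw [hB, Finset.sum_map]
    have h1 : ∑ a : (Σ U : P.parts, Fin (q U)), (2 * t - (q a.1 : ℝ)) =
        4 * (t : ℝ) ^ 2 - ∑ U, (q U : ℝ) ^ 2 := by
      rw [hsig (fun U => 2 * t - (q U : ℝ))]
      simp only [mul_sub, Finset.sum_sub_distrib, ← Finset.sum_mul]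
      rw [hq1r]
      congr 1
      · ring
      · exact Finset.sum_congr rfl fun U _ => by ring
    rw [← h1]
    exact Finset.sum_le_sum fun a _ => hdegB a
  have hDB : (∑ v ∈ B, dg G univ v) / N ≤ ∑ U, q U * dbar U + 2 * t * ε₁ := by
    rw [hB, Finset.sum_map, Finset.sum_div]
    have h1 : ∑ a : (Σ U : P.parts, Fin (q U)), (dbar a.1 + ε₁) =
        ∑ U, q U * dbar U + 2 * t * ε₁ := by
      rw [hsig (fun U => dbar U + ε₁)]
      simp only [mul_add, Finset.sum_add_distrib, ← Finset.sum_mul]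
      rw [hq1r]
    rw [← h1]
    refine Finset.sum_le_sum fun a _ => ?_
    have h2 := hf2 a
    rw [hC, mem_filter] at h2
    exact h2.2
  refine ⟨B, hBcard, ?_⟩
  have hyq : ∑ U, y U * q U = 2 * t * κ + t * ∑ U, q U * dbar U := by
    have h1 : ∀ U, y U * q U = κ * q U + t * (q U * dbar U) := by
      intro U; rw [hy]; ring
    simp only [h1, Finset.sum_add_distrib, ← Finset.mul_sum]
    rw [hq1r]; ring
  rw [hyq, hκ] at hq3
  have e1 : 2 * (t : ℝ) * (∑ v ∈ B, dg G univ v) / N = 2 * t * ((∑ v ∈ B, dg G univ v) / N) := by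
    ring
  have e2 : 2 * (t : ℝ) ^ 2 * T / N ^ 2 = 2 * t ^ 2 * p := by rw [hp]; ring
  rw [e1, e2]
  have e3 : 2 * (t : ℝ) * ((∑ v ∈ B, dg G univ v) / N) ≤
      2 * t * (∑ U, q U * dbar U + 2 * t * ε₁) := by gcongr
  nlinarith

end step

/-! ### The removal process -/

section removal

variable {V : Type}

theorem dg_map {W : Type} (G : SimpleGraph V) (e : W ↪ V) (B : Finset W) (v : W) :
    dg (G.comap e) B v = dg G (B.map e) (e v) := by
  classical
  unfold dg
  rw [Finset.filter_map, Finset.card_map]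
  rfl

theorem tot_map {W : Type} (G : SimpleGraph V) (e : W ↪ V) (B : Finset W) :
    tot (G.comap e) B = tot G (B.map e) := by
  unfold tot
  rw [Finset.sum_map]
  exact Finset.sum_congr rfl fun v _ => dg_map G e B v

/-- `main_step` for the subgraph induced by a finite set. -/
theorem step_finset (t : ℕ) (ht : 1 ≤ t) (ε : ℝ) (hε : 0 < ε) : ∃ N₀ : ℕ,
    ∀ (V : Type) (G : SimpleGraph V) (S : Finset V), N₀ ≤ S.card →
      (∃ v ∈ S, dg G S v / S.card ≤
        1 / 2 - 1 / (2 * t) + tot G S / (2 * (S.card : ℝ) ^ 2) + ε) ∨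
      (∃ B : Finset V, B ⊆ S ∧ B.card = 2 * t ∧
        2 * t * (t - 1) + 2 * t * (∑ v ∈ B, dg G S v) / S.card -
          2 * t ^ 2 * tot G S / (S.card : ℝ) ^ 2 - ε ≤ tot G B) := by
  obtain ⟨N₀, h⟩ := main_step t ht ε hε
  refine ⟨N₀, fun V G S hS => ?_⟩
  have hu : (univ : Finset S).map (Function.Embedding.subtype _) = S := by
    rw [Finset.univ_eq_attach]; exact Finset.attach_map_val
  have h1 := h S (G.comap (Function.Embedding.subtype (fun x => x ∈ S))) (by
    rw [Fintype.card_coe]; exact hS)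
  rw [Fintype.card_coe, tot_map, hu] at h1
  rcases h1 with ⟨v, hv⟩ | ⟨B, hB1, hB2⟩
  · left
    refine ⟨v, v.2, ?_⟩
    rw [dg_map, hu] at hv
    exact hv
  · right
    refine ⟨B.map (Function.Embedding.subtype _), ?_, by rw [Finset.card_map]; exact hB1, ?_⟩
    · intro x hx
      rw [Finset.mem_map] at hx
      obtain ⟨y, _, rfl⟩ := hx
      exact y.2
    · rw [tot_map] at hB2
      rw [Finset.sum_map]
      have h2 : ∑ v ∈ B, dg (G.comap (Function.Embedding.subtype (fun x => x ∈ S))) univ v =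
          ∑ v ∈ B, dg G S ((Function.Embedding.subtype (fun x => x ∈ S)) v) := by
        refine Finset.sum_congr rfl fun v _ => ?_
        rw [dg_map, hu]
      rw [h2] at hB2
      exact hB2

open Classical in
theorem dg_eq (G : SimpleGraph V) (S : Finset V) (v : V) :
    dg G S v = ∑ w ∈ S, if G.Adj v w then (1 : ℝ) else 0 := by
  unfold dg
  rw [Finset.card_filter]
  push_cast
  rfl

theorem tot_nonneg (G : SimpleGraph V) (S : Finset V) : 0 ≤ tot G S :=
  Finset.sum_nonneg fun v _ => dg_nonneg G S v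

theorem tot_le (G : SimpleGraph V) (S : Finset V) : tot G S ≤ (S.card : ℝ) ^ 2 := by
  unfold tot
  calc ∑ v ∈ S, dg G S v ≤ ∑ v ∈ S, (S.card : ℝ) := Finset.sum_le_sum fun v _ => dg_le G S v
    _ = (S.card : ℝ) ^ 2 := by rw [Finset.sum_const, nsmul_eq_mul, sq]

theorem tot_sdiff [DecidableEq V] (G : SimpleGraph V) {S B : Finset V} (hB : B ⊆ S) :
    tot G (S \ B) = tot G S - 2 * ∑ v ∈ B, dg G S v + tot G B := by
  classical
  unfold tot
  simp only [dg_eq]
  have h1 := Finset.sum_sdiff (f := fun v => ∑ w ∈ S, if G.Adj v w then (1 : ℝ) else 0) hB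
  have h2 : ∀ v, ∑ w ∈ S, (if G.Adj v w then (1 : ℝ) else 0) =
      ∑ w ∈ S \ B, (if G.Adj v w then (1 : ℝ) else 0) + ∑ w ∈ B, (if G.Adj v w then (1 : ℝ) else 0) :=
    fun v => (Finset.sum_sdiff hB).symm
  have h3 : ∑ v ∈ S \ B, ∑ w ∈ B, (if G.Adj v w then (1 : ℝ) else 0) =
      ∑ v ∈ B, ∑ w ∈ S \ B, (if G.Adj v w then (1 : ℝ) else 0) := by
    rw [Finset.sum_comm]
    refine Finset.sum_congr rfl fun v _ => Finset.sum_congr rfl fun w _ => ?_
    by_cases h : G.Adj v w
    · rw [if_pos h, if_pos h.symm]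
    · rw [if_neg h, if_neg fun h' => h h'.symm]
  rw [← h1]
  simp only [h2, Finset.sum_add_distrib]
  rw [h3]
  ring

theorem num1 (t N D T ε ε' : ℝ) (ht : 1 ≤ t) (hN : 2 ≤ N) (hε' : 2 * t * ε' ≤ ε / 2)
    (hN1 : t - 1 + ε / 2 ≤ ε / 2 * (N - 1)) (h : D / N ≤ 1 / 2 - 1 / (2 * t) + T / (2 * N ^ 2) + ε') :
    t * T / N - t * (T - 2 * D) / (N - 1) ≤ t - 1 + ε := by
  have hN0 : 0 < N := by linarith
  have hN10 : 0 < N - 1 := by linarith
  have ht0 : 0 < t := by linarith
  have h1 : t * T / N - t * (T - 2 * D) / (N - 1) = t * (2 * D * N - T) / (N * (N - 1)) := by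
    field_simp
    ring
  rw [h1, div_le_iff₀ (by positivity)]
  have h2 : D / N * (2 * N ^ 2) ≤ (1 / 2 - 1 / (2 * t) + T / (2 * N ^ 2) + ε') * (2 * N ^ 2) := by
    gcongr
  have h3 : D / N * (2 * N ^ 2) = 2 * D * N := by field_simp
  have h4 : (1 / 2 - 1 / (2 * t) + T / (2 * N ^ 2) + ε') * (2 * N ^ 2) =
      N ^ 2 * (1 - 1 / t + 2 * ε') + T := by field_simp; ring
  rw [h3, h4] at h2
  have h5 : t * (2 * D * N - T) ≤ t * (N ^ 2 * (1 - 1 / t + 2 * ε')) := by
    apply mul_le_mul_of_nonneg_left _ ht0.le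
    linarith
  have h6 : t * (N ^ 2 * (1 - 1 / t + 2 * ε')) = N ^ 2 * (t - 1 + 2 * t * ε') := by
    field_simp
  rw [h6] at h5
  have h7 : N ^ 2 * (t - 1 + 2 * t * ε') ≤ N ^ 2 * (t - 1 + ε / 2) := by gcongr
  have h8 : N * (t - 1 + ε / 2) ≤ (t - 1 + ε) * (N - 1) := by nlinarith
  nlinarith

theorem num2 (t N D T b ε ε' : ℝ) (ht : 1 ≤ t) (hN : 2 * t < N) (hε : 0 < ε)
    (hε' : ε' ≤ t * ε) (hT : 0 ≤ T) (hD : D ≤ 2 * t * N) (hb0 : 0 ≤ b)
    (hN1 : 8 * t ^ 2 ≤ ε * (N - 2 * t))
    (h : 2 * t * (t - 1) + 2 * t * D / N - 2 * t ^ 2 * T / N ^ 2 - ε' ≤ b) :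
    2 * t * (t - 1) - 2 * t * ε + t * T / N - t * (T - 2 * D + b) / (N - 2 * t) ≤ b := by
  have ht0 : 0 < t := by linarith
  have hN0 : 0 < N := by linarith
  have hM : 0 < N - 2 * t := by linarith
  set a := 2 * t * D / N - 2 * t ^ 2 * T / N ^ 2 with ha
  have ha4 : a ≤ 4 * t ^ 2 := by
    have h1 : 2 * t * D / N ≤ 4 * t ^ 2 := by
      rw [div_le_iff₀ hN0]; nlinarith
    have h2 : 0 ≤ 2 * t ^ 2 * T / N ^ 2 := by positivity
    linarith
  have h1 : t * T / N - t * (T - 2 * D + b) / (N - 2 * t) ≤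
      t * T / N - t * (T - 2 * D) / (N - 2 * t) := by
    have : t * (T - 2 * D) / (N - 2 * t) ≤ t * (T - 2 * D + b) / (N - 2 * t) := by
      gcongr; linarith
    linarith
  have h2 : t * T / N - t * (T - 2 * D) / (N - 2 * t) = a + a * (2 * t) / (N - 2 * t) := by
    rw [ha]
    obtain ⟨M, hMd⟩ : ∃ M, M = N - 2 * t := ⟨_, rfl⟩
    have hMN : N = M + 2 * t := by rw [hMd]; ring
    rw [← hMd] at hM ⊢
    rw [hMN] at hN0 ⊢
    field_simp
    ring
  have h3 : a * (2 * t) / (N - 2 * t) ≤ t * ε := by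
    rw [div_le_iff₀ hM]
    have h4 : a * (2 * t) ≤ 4 * t ^ 2 * (2 * t) := by gcongr
    nlinarith
  linarith

/-- The removal process. -/
theorem removal (t : ℕ) (ht : 1 ≤ t) (ε : ℝ) (hε : 0 < ε) : ∃ C : ℝ, 0 ≤ C ∧
    ∀ (V : Type) [DecidableEq V] (G : SimpleGraph V) (S : Finset V),
      ∃ (X : Finset V) (𝓑 : Finset (Finset V)), X ⊆ S ∧
        (∀ B ∈ 𝓑, B ⊆ S ∧ B.card = 2 * t ∧ Disjoint B X) ∧
        (∀ B ∈ 𝓑, ∀ B' ∈ 𝓑, B ≠ B' → Disjoint B B') ∧
        (t - 1) * S.card + t * tot G S / S.card - ε * S.card - C ≤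
          ∑ B ∈ 𝓑, tot G B + 2 * (t - 1) * X.card := by
  have htr : (1 : ℝ) ≤ t := by exact_mod_cast ht
  have htp : (0 : ℝ) < t := by linarith
  set ε' : ℝ := ε / (4 * t) with hε'
  have hε'0 : 0 < ε' := by positivity
  have hε'1 : 2 * t * ε' ≤ ε / 2 := by
    rw [hε']; apply le_of_eq; field_simp; ring
  obtain ⟨N₀, hN₀⟩ := step_finset t ht ε' hε'0
  obtain ⟨N₁, hN₁⟩ := exists_nat_gt (max (2 * (t - 1 + ε / 2) / ε + 2) (8 * t ^ 2 / ε + 2 * t + 2))
  set M := max N₀ N₁ with hM
  refine ⟨t * M, by positivity, ?_⟩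
  intro V _ G S
  induction h : S.card using Nat.strong_induction_on generalizing S with
  | _ n ih =>
    subst h
    by_cases hS : S.card < M
    · refine ⟨S, ∅, Finset.Subset.rfl, by simp, by simp, ?_⟩
      rw [Finset.sum_empty, zero_add]
      have h1 := tot_le G S
      have h2 : t * tot G S / S.card ≤ t * S.card := by
        rcases Nat.eq_zero_or_pos S.card with h0 | h0
        · rw [h0]; simp
        · have h0' : (0 : ℝ) < S.card := by exact_mod_cast h0
          rw [div_le_iff₀ h0']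
          nlinarith
      have h3 : (S.card : ℝ) ≤ M := by exact_mod_cast hS.le
      have h4 : (t : ℝ) * S.card ≤ t * M := by gcongr
      have h5 : 0 ≤ ((t : ℝ) - 1) * S.card := mul_nonneg (by linarith) (Nat.cast_nonneg _)
      have h6 : 0 ≤ ε * S.card := mul_nonneg hε.le (Nat.cast_nonneg _)
      linarith
    push Not at hS
    have hSN : N₀ ≤ S.card := (le_max_left _ _).trans hS
    have hSr : max (2 * (t - 1 + ε / 2) / ε + 2) (8 * (t : ℝ) ^ 2 / ε + 2 * t + 2) < S.card :=
      hN₁.trans_le (by exact_mod_cast (le_max_right _ _).trans hS)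
    have hSr1 := (le_max_left _ _).trans_lt hSr
    have hSr2 := (le_max_right _ _).trans_lt hSr
    set N : ℝ := (S.card : ℝ) with hN
    have hN2 : 2 * (t : ℝ) + 2 < N := by
      have : 0 ≤ 8 * (t : ℝ) ^ 2 / ε := by positivity
      linarith
    have hc1 : (t : ℝ) - 1 + ε / 2 ≤ ε / 2 * (N - 1) := by
      have h1 : 2 * ((t : ℝ) - 1 + ε / 2) / ε ≤ N - 1 := by linarith
      rw [div_le_iff₀ hε] at h1
      linarith
    have hc2 : 8 * (t : ℝ) ^ 2 ≤ ε * (N - 2 * t) := by
      have h1 : 8 * (t : ℝ) ^ 2 / ε ≤ N - 2 * t := by linarith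
      rw [div_le_iff₀ hε] at h1
      linarith
    rcases hN₀ V G S hSN with ⟨v, hvS, hv⟩ | ⟨B, hBS, hBc, hB⟩
    · -- a vertex of low degree
      have hcard : (S \ {v}).card = S.card - 1 := by
        rw [Finset.card_sdiff_of_subset (by simpa using hvS), Finset.card_singleton]
      have hpos : 0 < S.card := Finset.card_pos.2 ⟨v, hvS⟩
      obtain ⟨X, 𝓑, hX, h𝓑, hd, hineq⟩ := ih (S \ {v}).card (by omega) (S \ {v}) rfl
      have hvX : v ∉ X := fun h => by
        have := hX h
        simp at this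
      refine ⟨insert v X, 𝓑, ?_, ?_, hd, ?_⟩
      · intro x hx
        rcases Finset.mem_insert.1 hx with rfl | hx
        · exact hvS
        · exact (Finset.sdiff_subset (hX hx))
      · intro B hB
        obtain ⟨h1, h2, h3⟩ := h𝓑 B hB
        refine ⟨h1.trans Finset.sdiff_subset, h2, ?_⟩
        rw [Finset.disjoint_insert_right]
        refine ⟨fun h => ?_, h3⟩
        have := h1 h
        simp at this
      · rw [Finset.card_insert_of_notMem hvX]
        rw [hcard, Nat.cast_sub (by omega), ← hN, tot_sdiff G (by simpa using hvS),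
          Finset.sum_singleton] at hineq
        have ht0 : tot G {v} = 0 := by
          unfold tot dg
          simp
        rw [ht0, add_zero] at hineq
        have h1 := num1 t N (dg G S v) (tot G S) ε ε' htr (by linarith) hε'1 hc1 hv
        push_cast at hineq ⊢
        linarith
    · -- a set with many edges
      have hcard : (S \ B).card = S.card - 2 * t := by
        rw [Finset.card_sdiff_of_subset hBS, hBc]
      have hle : 2 * t ≤ S.card := hBc ▸ Finset.card_le_card hBS
      obtain ⟨X, 𝓑, hX, h𝓑, hd, hineq⟩ := ih (S \ B).card (by omega) (S \ B) rfl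
      have hB𝓑 : B ∉ 𝓑 := by
        intro h
        have h1 := (h𝓑 B h).1
        have h2 : B = ∅ := by
          rw [Finset.eq_empty_iff_forall_notMem]
          intro x hx
          exact (Finset.mem_sdiff.1 (h1 hx)).2 hx
        rw [h2] at hBc
        simp at hBc
        omega
      have hdisj : ∀ B' ∈ 𝓑, Disjoint B B' := by
        intro B' hB'
        rw [Finset.disjoint_right]
        intro x hx hxB
        exact (Finset.mem_sdiff.1 ((h𝓑 B' hB').1 hx)).2 hxB
      refine ⟨X, insert B 𝓑, hX.trans Finset.sdiff_subset, ?_, ?_, ?_⟩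
      · intro B' hB'
        rcases Finset.mem_insert.1 hB' with rfl | hB'
        · refine ⟨hBS, hBc, ?_⟩
          rw [Finset.disjoint_right]
          intro x hx hxB
          exact (Finset.mem_sdiff.1 (hX hx)).2 hxB
        · obtain ⟨h1, h2, h3⟩ := h𝓑 B' hB'
          exact ⟨h1.trans Finset.sdiff_subset, h2, h3⟩
      · intro B₁ hB₁ B₂ hB₂ hne
        rcases Finset.mem_insert.1 hB₁ with h1 | h1
        · rcases Finset.mem_insert.1 hB₂ with h2 | h2
          · exact absurd (h1.trans h2.symm) hne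
          · rw [h1]; exact hdisj _ h2
        · rcases Finset.mem_insert.1 hB₂ with h2 | h2
          · rw [h2]; exact (hdisj _ h1).symm
          · exact hd _ h1 _ h2 hne
      · rw [Finset.sum_insert hB𝓑]
        rw [hcard, Nat.cast_sub hle, ← hN, tot_sdiff G hBS] at hineq
        have hDle : ∑ v ∈ B, dg G S v ≤ 2 * t * N := by
          calc ∑ v ∈ B, dg G S v ≤ ∑ v ∈ B, N := Finset.sum_le_sum fun v _ => dg_le G S v
            _ = 2 * t * N := by rw [Finset.sum_const, hBc, nsmul_eq_mul]; push_cast; ring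
        have h1 := num2 t N (∑ v ∈ B, dg G S v) (tot G S) (tot G B) ε ε' htr (by linarith) hε
          (by
            have : ε' ≤ ε := by
              rw [hε', div_le_iff₀ (by positivity)]; nlinarith
            nlinarith) (tot_nonneg G S) hDle (tot_nonneg G B) hc2 hB
        push_cast at hineq ⊢
        linarith

end removal

/-! ### The subgraph without long paths -/

section union

open Pool.Agent.Results.MP_002b89_co.OddPaths

variable {V : Type} [Fintype V] [DecidableEq V]

/-- The edges of `G` inside the members of `𝓑`. -/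
def blocks (G : SimpleGraph V) (𝓑 : Finset (Finset V)) : SimpleGraph V where
  Adj x y := G.Adj x y ∧ ∃ B ∈ 𝓑, x ∈ B ∧ y ∈ B
  symm := ⟨fun _ _ h => ⟨h.1.symm, by
    obtain ⟨B, hB, h1, h2⟩ := h.2
    exact ⟨B, hB, h2, h1⟩⟩⟩
  loopless := ⟨fun _ h => h.1.ne rfl⟩

omit [Fintype V] [DecidableEq V] in
theorem union_free (G : SimpleGraph V) (W : Finset V) (g : V → Finset V)
    (hg : ∀ v ∈ W, Disjoint (g v) W) (t : ℕ) (ht : 1 ≤ t) (hs : ∀ v ∈ W, (g v).card ≤ t - 1)
    (hd : ∀ v ∈ W, ∀ w ∈ W, g v = g w ∨ Disjoint (g v) (g w)) (𝓑 : Finset (Finset V))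
    (hB : ∀ B ∈ 𝓑, B.card ≤ 2 * t) (hBB : ∀ B ∈ 𝓑, ∀ B' ∈ 𝓑, B ≠ B' → Disjoint B B')
    (hBW : ∀ B ∈ 𝓑, Disjoint B W) (hBg : ∀ B ∈ 𝓑, ∀ v ∈ W, Disjoint B (g v)) :
    (path (2 * t)).Free (pieces W g hg ⊔ blocks G 𝓑) := by
  classical
  rintro ⟨φ⟩
  have hinj : Function.Injective φ := φ.injective
  have hadj : ∀ i j, (path (2 * t)).Adj i j →
      (pieces W g hg ⊔ blocks G 𝓑).Adj (φ i) (φ j) := fun i j h => φ.toHom.map_adj h
  -- the neighbours of a vertex of a block
  have hstep : ∀ B ∈ 𝓑, ∀ x y, (pieces W g hg ⊔ blocks G 𝓑).Adj x y → x ∈ B → y ∈ B := by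
    intro B hBm x y h hx
    rw [sup_adj] at h
    rcases h with h | ⟨-, B', hB', hx', hy'⟩
    · rcases h with ⟨h1, -⟩ | ⟨h1, h2⟩
      · exact absurd h1 (Finset.disjoint_left.1 (hBW B hBm) hx)
      · exact absurd h2 (Finset.disjoint_left.1 (hBg B hBm y h1) hx)
    · by_cases hBe : B = B'
      · rw [hBe]; exact hy'
      · exact absurd hx' (Finset.disjoint_left.1 (hBB B hBm B' hB' hBe) hx)
  have hpath : ∀ (i : ℕ) (hi : i + 1 < 2 * t + 1),
      (path (2 * t)).Adj ⟨i, by omega⟩ ⟨i + 1, hi⟩ := by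
    intro i hi
    rw [pathGraph_adj]
    left; rfl
  by_cases h0 : ∃ B ∈ 𝓑, φ ⟨0, by omega⟩ ∈ B
  · obtain ⟨B, hBm, h0⟩ := h0
    have hall : ∀ (i : ℕ) (hi : i < 2 * t + 1), φ ⟨i, hi⟩ ∈ B := by
      intro i
      induction i with
      | zero => intro _; exact h0
      | succ i ih =>
        intro hi
        exact hstep B hBm _ _ (hadj _ _ (hpath i hi)) (ih (by omega))
    have h1 : (univ.image φ).card ≤ B.card := by
      apply Finset.card_le_card
      intro x hx
      rw [Finset.mem_image] at hx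
      obtain ⟨i, _, rfl⟩ := hx
      exact hall i.1 i.2
    rw [Finset.card_image_of_injective _ hinj, Finset.card_univ, Fintype.card_fin] at h1
    have := hB B hBm
    omega
  · push Not at h0
    have hall : ∀ (i : ℕ) (hi : i < 2 * t + 1), ∀ B ∈ 𝓑, φ ⟨i, hi⟩ ∉ B := by
      intro i
      induction i with
      | zero => intro _; exact h0
      | succ i ih =>
        intro hi B hBm h
        exact ih (by omega) B hBm (hstep B hBm _ _ (hadj _ _ (hpath i hi)).symm h)
    have hle : 2 * (t - 1) + 1 + 1 ≤ 2 * t + 1 := by omega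
    refine pieces_free W g hg (t - 1) hs hd
      ⟨⟨⟨fun i => φ (Fin.castLE hle i), ?_⟩, ?_⟩⟩
    · intro i j hij
      have h1 : (path (2 * t)).Adj (Fin.castLE hle i) (Fin.castLE hle j) := by
        rw [pathGraph_adj] at hij ⊢
        simpa using hij
      have h2 := hadj _ _ h1
      rw [sup_adj] at h2
      rcases h2 with h2 | ⟨-, B, hBm, h3, -⟩
      · exact h2
      · exact absurd h3 (hall _ (Fin.castLE hle i).2 B hBm)
    · intro i j hij
      exact Fin.castLE_injective hle (hinj hij)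

theorem two_ex_ge (G : SimpleGraph V) (W : Finset V) (g : V → Finset V)
    (hg : ∀ v ∈ W, Disjoint (g v) W) (hG : ∀ v ∈ W, ∀ w ∈ g v, G.Adj v w)
    (t : ℕ) (ht : 1 ≤ t) (hs : ∀ v ∈ W, (g v).card = t - 1)
    (hd : ∀ v ∈ W, ∀ w ∈ W, g v = g w ∨ Disjoint (g v) (g w)) (𝓑 : Finset (Finset V))
    (hB : ∀ B ∈ 𝓑, B.card = 2 * t) (hBB : ∀ B ∈ 𝓑, ∀ B' ∈ 𝓑, B ≠ B' → Disjoint B B')
    (hBW : ∀ B ∈ 𝓑, Disjoint B W) (hBg : ∀ B ∈ 𝓑, ∀ v ∈ W, Disjoint B (g v)) :
    2 * ((t : ℝ) - 1) * W.card + ∑ B ∈ 𝓑, tot G B ≤ 2 * exIn G (path (2 * t)) := by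
  classical
  set H := pieces W g hg ⊔ blocks G 𝓑 with hH
  have hle : H ≤ G := by
    intro x y h
    rw [hH, sup_adj] at h
    rcases h with h | h
    · exact pieces_le G W g hg hG h
    · exact h.1
  have hfree : (path (2 * t)).Free H :=
    union_free G W g hg t ht (fun v hv => (hs v hv).le) hd 𝓑 (fun B hBm => (hB B hBm).le) hBB
      hBW hBg
  have h1 := le_exIn G H _ hle hfree
  have h2 : H.edgeSet.ncard = (pieces W g hg).edgeSet.ncard + (blocks G 𝓑).edgeSet.ncard := by
    rw [hH, edgeSet_sup]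
    apply Set.ncard_union_eq _ (Set.toFinite _) (Set.toFinite _)
    rw [Set.disjoint_left]
    intro e
    refine Sym2.ind (fun x y => ?_) e
    intro h3 h4
    rw [mem_edgeSet] at h3 h4
    obtain ⟨-, B, hBm, hx, hy⟩ := h4
    rcases h3 with ⟨h5, -⟩ | ⟨h5, -⟩
    · exact Finset.disjoint_left.1 (hBW B hBm) hx h5
    · exact Finset.disjoint_left.1 (hBW B hBm) hy h5
  have h3 := pieces_card W g hg (t - 1) hs
  have h4 : ∑ B ∈ 𝓑, tot G B ≤ 2 * ((blocks G 𝓑).edgeSet.ncard : ℝ) := by
    have h5 := (blocks G 𝓑).sum_degrees_eq_twice_card_edges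
    have h6 : (blocks G 𝓑).edgeSet.ncard = (blocks G 𝓑).edgeFinset.card := by
      rw [← coe_edgeFinset, Set.ncard_coe_finset]
    rw [h6]
    have h7 : (2 : ℝ) * ((blocks G 𝓑).edgeFinset.card : ℝ) =
        ∑ v, ((blocks G 𝓑).degree v : ℝ) := by exact_mod_cast h5.symm
    rw [h7]
    unfold tot
    calc ∑ B ∈ 𝓑, ∑ v ∈ B, dg G B v ≤ ∑ B ∈ 𝓑, ∑ v ∈ id B, ((blocks G 𝓑).degree v : ℝ) := by
          refine Finset.sum_le_sum fun B hBm => Finset.sum_le_sum fun v hv => ?_
          unfold dg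
          rw [← card_neighborFinset_eq_degree]
          rw [Nat.cast_le]
          apply Finset.card_le_card
          intro w hw
          rw [mem_filter] at hw
          rw [mem_neighborFinset]
          exact ⟨hw.2, B, hBm, hv, hw.1⟩
      _ = ∑ v ∈ 𝓑.biUnion id, ((blocks G 𝓑).degree v : ℝ) := by
          rw [Finset.sum_biUnion]
          intro B hBm B' hBm' hne
          exact hBB B hBm B' hBm' hne
      _ ≤ ∑ v, ((blocks G 𝓑).degree v : ℝ) :=
          Finset.sum_le_sum_of_subset_of_nonneg (Finset.subset_univ _)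
            fun v _ _ => Nat.cast_nonneg _
  have h8 : ((H.edgeSet.ncard : ℕ) : ℝ) ≤ exIn G (path (2 * t)) := by exact_mod_cast h1
  rw [h2] at h8
  push_cast at h8
  have h9 : (((t - 1) * W.card : ℕ) : ℝ) ≤ (pieces W g hg).edgeSet.ncard := by exact_mod_cast h3
  rw [Nat.cast_mul, Nat.cast_sub ht] at h9
  push_cast at h9
  linarith

end union

/-! ### The main inequality -/

section mainineq

open Pool.Agent.Results.MP_002b89_co.OddPaths

variable {V : Type} [Fintype V] [DecidableEq V]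

theorem main_ineq (G : SimpleGraph V) (X L : Finset V) (t m M : ℕ) (ht : 1 ≤ t)
    (hm : t - 1 ≤ m)
    (hL : ∀ v ∈ L, ∃ N : Finset V, N ⊆ X ∧ m + (t - 1) * M ≤ N.card ∧ ∀ w ∈ N, G.Adj v w)
    (ε C : ℝ)
    (hrem : ∀ S : Finset V, ∃ (X : Finset V) (𝓑 : Finset (Finset V)), X ⊆ S ∧
        (∀ B ∈ 𝓑, B ⊆ S ∧ B.card = 2 * t ∧ Disjoint B X) ∧
        (∀ B ∈ 𝓑, ∀ B' ∈ 𝓑, B ≠ B' → Disjoint B B') ∧
        (t - 1) * S.card + t * tot G S / S.card - ε * S.card - C ≤
          ∑ B ∈ 𝓑, tot G B + 2 * (t - 1) * X.card) :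
    ∃ S : Finset V, S ⊆ L ∧ L.card ≤ S.card + (t - 1) * M ∧
      ((t : ℝ) - 1) * S.card + t * tot G S / S.card - ε * S.card - C ≤
        2 * exIn G (path (2 * t)) + 2 * ((t : ℝ) - 1) *
          ((1 - (m.choose (t - 1) : ℝ) / (X.card.choose (t - 1) : ℝ)) ^ M * L.card) ∧
      tot G L ≤ tot G S + 2 * (((t - 1) * M : ℕ) : ℝ) * L.card := by
  classical
  obtain ⟨𝒮, h1, h2, h3, h4⟩ := covering G X L (t - 1) m M hm hL M le_rfl
  set D := 𝒮.biUnion id with hD
  have hDcard : D.card ≤ (t - 1) * M := by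
    have h5 : D.card ≤ 𝒮.card * (t - 1) := by
      apply card_biUnion_le_card_mul
      intro S hS
      exact (h2 S hS).le
    have h6 : 𝒮.card * (t - 1) ≤ M * (t - 1) := Nat.mul_le_mul_right _ h1
    rw [mul_comm (t - 1) M]
    omega
  obtain ⟨X', 𝓑, hX', h𝓑, hdd, hineq⟩ := hrem (L \ D)
  set W := X' \ unc G L 𝒮 with hW
  have hcov : ∀ v ∈ W, ∃ S ∈ 𝒮, ∀ w ∈ S, G.Adj v w := by
    intro v hv
    rw [hW, Finset.mem_sdiff] at hv
    have hvL : v ∈ L := (Finset.mem_sdiff.1 (hX' hv.1)).1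
    by_contra hcon
    push Not at hcon
    apply hv.2
    unfold unc
    rw [mem_filter]
    refine ⟨hvL, fun S hS => ?_⟩
    push Not
    exact hcon S hS
  choose! g hg1 hg2 using hcov
  have hgD : ∀ v ∈ W, g v ⊆ D := fun v hv => Finset.subset_biUnion_of_mem id (hg1 v hv)
  have hWD : Disjoint W D := by
    rw [Finset.disjoint_left]
    intro x hx hxD
    rw [hW, Finset.mem_sdiff] at hx
    exact (Finset.mem_sdiff.1 (hX' hx.1)).2 hxD
  have h5 := two_ex_ge G W g (fun v hv => (hWD.mono_right (hgD v hv)).symm) hg2 t ht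
    (fun v hv => h2 _ (hg1 v hv)) (fun v hv w hw => h3 _ (hg1 v hv) _ (hg1 w hw)) 𝓑
    (fun B hB => (h𝓑 B hB).2.1) hdd
    (fun B hB => (h𝓑 B hB).2.2.mono_right (by rw [hW]; exact Finset.sdiff_subset))
    (fun B hB v hv => by
      rw [Finset.disjoint_left]
      intro x hx hxg
      exact (Finset.mem_sdiff.1 ((h𝓑 B hB).1 hx)).2 (hgD v hv hxg))
  have h6 : (X'.card : ℝ) ≤ W.card + (unc G L 𝒮).card := by
    have : X' ⊆ W ∪ unc G L 𝒮 := by
      intro x hx
      rw [mem_union, hW, Finset.mem_sdiff]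
      tauto
    exact_mod_cast (card_le_card this).trans (card_union_le _ _)
  have htr : (0 : ℝ) ≤ (t : ℝ) - 1 := by
    have : (1 : ℝ) ≤ t := by exact_mod_cast ht
    linarith
  refine ⟨L \ D, Finset.sdiff_subset, ?_, ?_, ?_⟩
  · have := Finset.card_le_card_sdiff_add_card (s := L) (t := D)
    omega
  · have h7 : 2 * ((t : ℝ) - 1) * X'.card ≤ 2 * ((t : ℝ) - 1) * (W.card + (unc G L 𝒮).card) := by
      gcongr
    have h8 : 2 * ((t : ℝ) - 1) * ((unc G L 𝒮).card : ℝ) ≤ 2 * ((t : ℝ) - 1) *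
        ((1 - (m.choose (t - 1) : ℝ) / (X.card.choose (t - 1) : ℝ)) ^ M * L.card) := by
      gcongr
    linarith
  · have hLD : L \ D = L \ (L ∩ D) := by
      ext x; simp
    rw [hLD, tot_sdiff G Finset.inter_subset_left]
    have h7 : ∑ v ∈ L ∩ D, dg G L v ≤ (((t - 1) * M : ℕ) : ℝ) * L.card := by
      calc ∑ v ∈ L ∩ D, dg G L v ≤ ∑ v ∈ L ∩ D, (L.card : ℝ) :=
            Finset.sum_le_sum fun v _ => dg_le G L v
        _ = ((L ∩ D).card : ℝ) * L.card := by rw [Finset.sum_const, nsmul_eq_mul]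
        _ ≤ (((t - 1) * M : ℕ) : ℝ) * L.card := by
            gcongr
            exact (Finset.card_le_card Finset.inter_subset_right).trans hDcard
    have h8 := tot_nonneg G (L ∩ D)
    linarith

omit [DecidableEq V] in
/-- Twice the number of edges. -/
theorem tot_univ (G : SimpleGraph V) : tot G univ = 2 * (G.edgeSet.ncard : ℝ) := by
  classical
  have h5 := G.sum_degrees_eq_twice_card_edges
  have h6 : G.edgeSet.ncard = G.edgeFinset.card := by
    rw [← coe_edgeFinset, Set.ncard_coe_finset]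
  rw [h6]
  have h7 : (2 : ℝ) * (G.edgeFinset.card : ℝ) = ∑ v, (G.degree v : ℝ) := by
    exact_mod_cast h5.symm
  rw [h7]
  unfold tot dg
  refine Finset.sum_congr rfl fun v _ => ?_
  rw [← card_neighborFinset_eq_degree]
  congr 2
  ext w
  simp

theorem edges_le_tot (G : SimpleGraph V) (X L : Finset V) (d : ℝ) (hd0 : 0 ≤ d)
    (hX : ∀ v, v ∉ X → ∀ w, ¬ G.Adj v w) (hd : ∀ v, v ∉ L → dg G univ v ≤ d) :
    2 * (G.edgeSet.ncard : ℝ) ≤ tot G L + 2 * (X.card * d) := by
  classical
  rw [← tot_univ]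
  have h1 := tot_sdiff G (Finset.subset_univ Lᶜ)
  have h2 : univ \ Lᶜ = L := by ext x; simp
  rw [h2] at h1
  have h3 : ∑ v ∈ Lᶜ, dg G univ v ≤ X.card * d := by
    calc ∑ v ∈ Lᶜ, dg G univ v = ∑ v ∈ Lᶜ.filter (fun v => v ∈ X), dg G univ v := by
          rw [sum_filter]
          apply sum_congr rfl
          intro v _
          by_cases hv : v ∈ X
          · rw [if_pos hv]
          · rw [if_neg hv]
            unfold dg
            rw [Nat.cast_eq_zero, card_eq_zero, filter_eq_empty_iff]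
            exact fun w _ => hX v hv w
      _ ≤ ∑ v ∈ Lᶜ.filter (fun v => v ∈ X), d := by
          apply sum_le_sum
          intro v hv
          rw [mem_filter, mem_compl] at hv
          exact hd v hv.1
      _ ≤ ∑ v ∈ X, d := by
          apply Finset.sum_le_sum_of_subset_of_nonneg
          · intro v hv
            exact (mem_filter.1 hv).2
          · intro v _ _
            exact hd0
      _ = X.card * d := by rw [Finset.sum_const, nsmul_eq_mul]
  have h4 := tot_nonneg G Lᶜ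
  linarith

end mainineq

/-! ### The upper bound -/

section upper

open Pool.Agent.Results.MP_002b89_co.OddPaths (exIn hosts exInv path card_nonisolated choose_ratio)

theorem exIn_mono {V : Type} [Fintype V] (G : SimpleGraph V) (t : ℕ) (ht : 1 ≤ t) :
    exIn G (path (2 * (t - 1) + 1)) ≤ exIn G (path (2 * t)) := by
  have hle : 2 * (t - 1) + 1 + 1 ≤ 2 * t + 1 := by omega
  have hcont : (path (2 * (t - 1) + 1)).IsContained (path (2 * t)) := by
    refine ⟨⟨⟨fun i => Fin.castLE hle i, ?_⟩, Fin.castLE_injective hle⟩⟩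
    intro i j hij
    rw [pathGraph_adj] at hij ⊢
    simpa using hij
  unfold exIn
  apply csSup_le_csSup
  · exact Pool.Agent.Results.MP_002b89_co.OddPaths.bdd G _
  · refine ⟨_, ⊥, bot_le, ?_, rfl⟩
    rintro ⟨φ⟩
    have h : (path (2 * (t - 1) + 1)).Adj ⟨0, by omega⟩ ⟨1, by omega⟩ := by
      rw [pathGraph_adj]; left; rfl
    exact φ.toHom.map_adj h
  · rintro m ⟨H, hH, hF, rfl⟩
    exact ⟨H, hH, fun h => hF (hcont.trans h), rfl⟩

theorem numeric (t k δ M C c₀ x N T tL Y d e E : ℝ) (ht : 2 ≤ t) (hk : 1 ≤ k) (hδ0 : 0 < δ)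
    (hδ1 : δ ≤ 1) (hM : 0 ≤ M) (hN0 : 0 ≤ N) (hNx : N ≤ x) (hx : x ≤ 2 * k)
    (h1 : (t - 1) * N + t * T / N - δ * N - C ≤ 2 * E + 2 * (t - 1) * (δ * x)) (hE : E ≤ k)
    (h2 : tL ≤ T + 2 * ((t - 1) * M) * x) (h3 : 2 * e ≤ tL + 2 * (Y * d)) (hY : Y ≤ 2 * k)
    (hY0 : 0 ≤ Y) (hd : d ≤ δ * k + c₀) (hc0 : 0 ≤ c₀) (hT0 : 0 ≤ T) (hTN : T ≤ N ^ 2)
    (hkC : C ≤ 2 * δ * k) (hkM : 2 * (t - 1) * M + 2 * c₀ ≤ δ * k) :
    e ≤ (1 / (2 * t * (t - 1)) + 11 * δ) * k ^ 2 := by
  have ht0 : 0 < t := by linarith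
  have ht1 : 0 < t - 1 := by linarith
  have hk0 : 0 < k := by linarith
  have hA : (t - 1) * N + t * T / N ≤ 2 * k * (1 + 2 * t * δ) := by
    have a1 : δ * N ≤ 2 * δ * k := by nlinarith
    have a2 : 2 * (t - 1) * (δ * x) ≤ 4 * (t - 1) * δ * k := by
      have : (t - 1) * δ * x ≤ (t - 1) * δ * (2 * k) := by gcongr
      linarith
    nlinarith
  have hAM : 4 * (t * (t - 1)) * T ≤ ((t - 1) * N + t * T / N) ^ 2 := by
    rcases hN0.eq_or_lt with h | h
    · rw [← h] at hTN
      have : T = 0 := by nlinarith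
      rw [this]; simp; positivity
    · have : ((t - 1) * N) * (t * T / N) = t * (t - 1) * T := by field_simp
      nlinarith [sq_nonneg ((t - 1) * N - t * T / N)]
  have hA0 : 0 ≤ (t - 1) * N + t * T / N := by positivity
  have hA2 : ((t - 1) * N + t * T / N) ^ 2 ≤ (2 * k * (1 + 2 * t * δ)) ^ 2 := by gcongr
  have hT1 : t * (t - 1) * T ≤ k ^ 2 * (1 + 8 * t ^ 2 * δ) := by
    have b1 : (1 + 2 * t * δ) ^ 2 ≤ 1 + 8 * t ^ 2 * δ := by
      have c1 : t * δ ≤ t ^ 2 * δ := by nlinarith [mul_pos ht0 hδ0]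
      have c2 : (t * δ) ^ 2 ≤ t ^ 2 * δ := by
        have : (t * δ) ^ 2 = (t ^ 2 * δ) * δ := by ring
        rw [this]
        have : 0 ≤ t ^ 2 * δ := by positivity
        nlinarith
      nlinarith
    have b2 : (2 * k * (1 + 2 * t * δ)) ^ 2 = 4 * k ^ 2 * (1 + 2 * t * δ) ^ 2 := by ring
    have b3 : k ^ 2 * (1 + 2 * t * δ) ^ 2 ≤ k ^ 2 * (1 + 8 * t ^ 2 * δ) := by gcongr
    linarith
  have hT2 : T ≤ k ^ 2 / (t * (t - 1)) + 16 * δ * k ^ 2 := by
    have b1 : T ≤ k ^ 2 * (1 + 8 * t ^ 2 * δ) / (t * (t - 1)) := by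
      rw [le_div_iff₀ (by positivity)]; linarith
    refine b1.trans ?_
    have b2 : k ^ 2 * (1 + 8 * t ^ 2 * δ) / (t * (t - 1)) =
        k ^ 2 / (t * (t - 1)) + (t / (t - 1)) * (8 * δ * k ^ 2) := by
      field_simp
    rw [b2]
    have b3 : t / (t - 1) ≤ 2 := by rw [div_le_iff₀ ht1]; linarith
    have b4 : 0 ≤ 8 * δ * k ^ 2 := by positivity
    nlinarith
  have hYd : Y * d ≤ 2 * k * (δ * k + c₀) := by
    calc Y * d ≤ Y * (δ * k + c₀) := by gcongr
      _ ≤ 2 * k * (δ * k + c₀) := by gcongr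
  have hMx : 2 * ((t - 1) * M) * x ≤ 2 * ((t - 1) * M) * (2 * k) := by gcongr
  have hfin : (1 / (2 * t * (t - 1)) + 11 * δ) * k ^ 2 =
      (k ^ 2 / (t * (t - 1))) / 2 + 11 * δ * k ^ 2 := by
    field_simp
  rw [hfin]
  nlinarith

theorem upper (t : ℕ) (ht : 2 ≤ t) (ε : ℝ) (hε : 0 < ε) : ∃ k₀ : ℕ, ∀ k : ℕ, k₀ ≤ k →
    ∀ (n : ℕ) (G : SimpleGraph (Fin n)), exIn G (path (2 * t)) < k →
      (G.edgeSet.ncard : ℝ) ≤ (1 / (2 * t * (t - 1)) + ε) * (k : ℝ) ^ 2 := by
  classical
  set δ : ℝ := min (ε / 11) (1 / 2) with hδ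
  have hδ0 : 0 < δ := by rw [hδ]; positivity
  have hδ1 : δ ≤ 1 / 2 := min_le_right _ _
  have hδ2 : 11 * δ ≤ ε := by
    have : δ ≤ ε / 11 := min_le_left _ _
    linarith
  have hc0 : 0 < (δ / 2) ^ (t - 1) := by positivity
  have hc1 : (δ / 2) ^ (t - 1) ≤ 1 := pow_le_one₀ (by positivity) (by linarith)
  obtain ⟨M, hM⟩ : ∃ M : ℕ, (1 - (δ / 2) ^ (t - 1)) ^ M < δ :=
    exists_pow_lt_of_lt_one hδ0 (by linarith)
  obtain ⟨C, hC0, hrem⟩ := removal t (by omega) δ hδ0
  have htr : (2 : ℝ) ≤ t := by exact_mod_cast ht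
  have hcast : (((t - 1 : ℕ)) : ℝ) = (t : ℝ) - 1 := by rw [Nat.cast_sub (by omega)]; simp
  set c₀ : ℝ := 1 + ((t : ℝ) - 1) + ((t : ℝ) - 1) * M with hc₀
  have hc₀0 : 0 ≤ c₀ := by
    rw [hc₀]
    have : 0 ≤ (t : ℝ) - 1 := by linarith
    positivity
  obtain ⟨k₀, hk₀⟩ := exists_nat_gt (max (C / (2 * δ)) ((2 * ((t : ℝ) - 1) * M + 2 * c₀) / δ))
  refine ⟨k₀ + 1, fun k hk n G hG => ?_⟩
  have hk1 : (1 : ℝ) ≤ k := by exact_mod_cast (by omega : 1 ≤ k)
  have hkk : max (C / (2 * δ)) ((2 * ((t : ℝ) - 1) * M + 2 * c₀) / δ) < k :=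
    lt_of_lt_of_le hk₀ (by exact_mod_cast (by omega : k₀ ≤ k))
  have hkC : C ≤ 2 * δ * k := by
    have h1 := (le_max_left _ _).trans_lt hkk
    rw [div_lt_iff₀ (by positivity)] at h1
    linarith
  have hkM : 2 * ((t : ℝ) - 1) * M + 2 * c₀ ≤ δ * k := by
    have h1 := (le_max_right _ _).trans_lt hkk
    rw [div_lt_iff₀ hδ0] at h1
    linarith
  set X : Finset (Fin n) := univ.filter (fun v => ∃ w, G.Adj v w) with hX
  have hXcard : X.card < 2 * k := card_nonisolated G (t - 1) k (by omega)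
    ((exIn_mono G t (by omega)).trans_lt hG) X (fun v hv => by
    rw [hX, mem_filter] at hv
    exact hv.2)
  set m := ⌈δ * k⌉₊ + (t - 1) with hm
  set d := m + (t - 1) * M with hd
  set L : Finset (Fin n) := univ.filter (fun v => (d : ℝ) ≤ dg G univ v) with hL
  have hedges := edges_le_tot G X L (d : ℝ) (Nat.cast_nonneg _) (fun v hv w hw => hv (by
    rw [hX, mem_filter]; exact ⟨mem_univ _, w, hw⟩)) (fun v hv => by
      rw [hL, mem_filter] at hv
      push Not at hv
      exact (hv (mem_univ _)).le)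
  have hLN : ∀ v ∈ L, ∃ N : Finset (Fin n), N ⊆ X ∧ m + (t - 1) * M ≤ N.card ∧
      ∀ w ∈ N, G.Adj v w := by
    intro v hv
    rw [hL, mem_filter] at hv
    refine ⟨univ.filter (fun w => G.Adj v w), ?_, ?_, fun w hw => (mem_filter.1 hw).2⟩
    · intro w hw
      rw [mem_filter] at hw
      rw [hX, mem_filter]
      exact ⟨mem_univ _, v, hw.2.symm⟩
    · have h1 := hv.2
      unfold dg at h1
      have h2 : d ≤ (univ.filter (fun w => G.Adj v w)).card := by
        have h3 := Nat.cast_le.1 h1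
        convert h3
      exact h2
  obtain ⟨S, hSL, hSc, hineq, htot⟩ := main_ineq G X L t m M (by omega) (by omega) hLN δ C
    (fun S => hrem _ G S)
  have hLX : L ⊆ X := by
    intro v hv
    obtain ⟨N, hN1, hN2, hN3⟩ := hLN v hv
    have : 0 < N.card := by omega
    obtain ⟨w, hw⟩ := Finset.card_pos.1 this
    rw [hX, mem_filter]
    exact ⟨mem_univ _, w, hN3 w hw⟩
  have hceil := Nat.le_ceil (δ * k)
  have hceil2 : (⌈δ * k⌉₊ : ℝ) < δ * k + 1 := Nat.ceil_lt_add_one (by positivity)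
  have hratio : (1 - (m.choose (t - 1) : ℝ) / (X.card.choose (t - 1) : ℝ)) ^ M * (L.card : ℝ) ≤
      δ * L.card := by
    rcases L.eq_empty_or_nonempty with h0 | ⟨v, hv⟩
    · rw [h0]; simp
    · obtain ⟨N, hN1, hN2, _⟩ := hLN v hv
      have hmX : m ≤ X.card := by have := card_le_card hN1; omega
      have h1 : (δ / 2) ^ (t - 1) ≤ (m.choose (t - 1) : ℝ) / (X.card.choose (t - 1) : ℝ) := by
        apply choose_ratio m X.card (t - 1) (by omega) hmX (δ / 2) (by positivity)
        · have h1 : (X.card : ℝ) ≤ 2 * k := by exact_mod_cast hXcard.le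
          have h2 : (m : ℝ) = ⌈δ * k⌉₊ + ((t - 1 : ℕ) : ℝ) := by rw [hm]; push_cast; ring
          rw [h2]
          have h3 : δ / 2 * X.card ≤ δ / 2 * (2 * k) := by gcongr
          linarith
        · omega
      have h5 : (m.choose (t - 1) : ℝ) / (X.card.choose (t - 1) : ℝ) ≤ 1 := by
        apply div_le_one_of_le₀
        · exact_mod_cast Nat.choose_le_choose (t - 1) hmX
        · exact Nat.cast_nonneg _
      gcongr
      refine le_trans ?_ hM.le
      have h6 : 0 ≤ 1 - (m.choose (t - 1) : ℝ) / (X.card.choose (t - 1) : ℝ) := by linarith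
      gcongr
  have hd2 : (d : ℝ) ≤ δ * k + c₀ := by
    rw [hd, hm]
    push_cast
    rw [hcast]
    linarith
  have hSN : (S.card : ℝ) ≤ L.card := by exact_mod_cast Finset.card_le_card hSL
  have hL2k : (L.card : ℝ) ≤ 2 * k := by
    exact_mod_cast (Finset.card_le_card hLX).trans hXcard.le
  have hmain := numeric t k δ M C c₀ L.card S.card (tot G S) (tot G L) X.card d
    G.edgeSet.ncard (exIn G (path (2 * t))) htr hk1 hδ0 (by linarith) (Nat.cast_nonneg _)
    (Nat.cast_nonneg _) hSN hL2k (by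
      refine hineq.trans ?_
      have : (0 : ℝ) ≤ 2 * ((t : ℝ) - 1) := by linarith
      gcongr) (by exact_mod_cast hG.le) (by
      refine htot.trans (le_of_eq ?_)
      push_cast
      rw [hcast]) hedges (by exact_mod_cast hXcard.le) (Nat.cast_nonneg _) hd2 hc₀0
    (tot_nonneg G S) (tot_le G S) hkC hkM
  refine hmain.trans ?_
  gcongr

end upper

/-! ### The result -/

section result

open Pool.Agent.Results.MP_002b89_co.OddPaths (exIn hosts exInv path)

/-- The numbers of edges of the hosts are bounded, so that `exInv` is a maximum. -/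
theorem hosts_bdd (t k : ℕ) (ht : 2 ≤ t) : BddAbove (hosts k (path (2 * t))) := by
  obtain ⟨k₀, hk₀⟩ := upper t ht 1 one_pos
  obtain ⟨B, hB⟩ := exists_nat_ge
    ((1 / (2 * (t : ℝ) * (t - 1)) + 1) * ((max k k₀ : ℕ) : ℝ) ^ 2)
  refine ⟨B, ?_⟩
  rintro e ⟨n, G, hG, rfl⟩
  have := hk₀ (max k k₀) (le_max_right _ _) n G (lt_of_lt_of_le hG (le_max_left _ _))
  exact_mod_cast this.trans hB

theorem hosts_nonempty (t k : ℕ) (hk : 1 ≤ k) : (hosts k (path (2 * t))).Nonempty := by
  refine ⟨_, 0, ⊥, ?_, rfl⟩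
  refine lt_of_le_of_lt ?_ hk
  unfold exIn
  by_cases h : {m | ∃ H : SimpleGraph (Fin 0), H ≤ ⊥ ∧ (path (2 * t)).Free H ∧
      H.edgeSet.ncard = m}.Nonempty
  · apply csSup_le h
    rintro m ⟨H, hH, -, rfl⟩
    have : H = ⊥ := le_bot_iff.1 hH
    rw [this]; simp
  · rw [Set.not_nonempty_iff_eq_empty.1 h]; simp

/-- **The upper bound in Q1**, for every `t ≥ 2`. -/
theorem result : ∀ t : ℕ, 2 ≤ t → (∀ k, BddAbove (hosts k (path (2 * t)))) ∧
    ∀ ε : ℝ, 0 < ε → ∃ k₀ : ℕ, ∀ k : ℕ, k₀ ≤ k →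
      (exInv k (path (2 * t)) : ℝ) ≤ (1 / (2 * t * (t - 1)) + ε) * (k : ℝ) ^ 2 := by
  intro t ht
  refine ⟨fun k => hosts_bdd t k ht, fun ε hε => ?_⟩
  obtain ⟨k₀, hk₀⟩ := upper t ht ε hε
  refine ⟨max k₀ 1, fun k hk => ?_⟩
  obtain ⟨n, G, hG, he⟩ := Nat.sSup_mem (hosts_nonempty t k (by omega)) (hosts_bdd t k ht)
  have := hk₀ k (by omega) n G hG
  unfold exInv
  rw [← he]
  exact this

end result

end Pool.Agent.Results.MP_69c6fe_co.EvenPaths
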